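import Pool.Agent.H623.TG.J

/-! Robustness, part A: the thin set of the integers whose trajectory goes down too quickly. -/

set_option autoImplicit false

namespace Pool.Agent.H623.RB

open Finset Filter Topology
open Pool.Agent.H623.TG
open Pool.Agent.H499R2.CO (Tz)
open Pool.Agent.R344.SP (od od_succ od_le Wn mem_Wn od_small)
open Pool.Agent.R344.TH (Tz_even Tz_odd od_large fA mem_fA HY HY_cons)

theorem log32 : 158 / 100 * Real.log 2 ≤ Real.log 3 := by
  have h : Real.log ((2 : ℝ) ^ 158) ≤ Real.log ((3 : ℝ) ^ 100) := Real.log_le_log (by norm_num) (by norm_num)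
  rw [Real.log_pow, Real.log_pow] at h
  push_cast at h
  linarith

/-- no quick descent in `log_2 m` steps -/
def Slow (s m : ℤ) : Prop :=
  ∀ k : ℕ, (2 : ℝ) ^ k ≤ m → (m : ℝ) < 2 ^ (k + 1) →
    ∀ j ≤ k, (m : ℝ) ^ (7 / 10 : ℝ) ≤ (((Tz s)^[j] m : ℤ) : ℝ)

def Quick (s : ℤ) : Set ℤ := {m | 0 < m ∧ ¬ Slow s m}

theorem Tz_half {s : ℤ} (hs : s = 1 ∨ s = -1) {x : ℤ} (hx : 0 < x) : x ≤ 2 * Tz s x := by
  rcases Int.emod_two_eq_zero_or_one x with h | h
  · have := Tz_even (d := s) h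
    omega
  · have hs2 : s % 2 = 1 := by rcases hs with rfl | rfl <;> norm_num
    have := Tz_odd hs2 (y := x) (by omega)
    rcases hs with rfl | rfl <;> omega

/-- a quick integer in a dyadic block has too few odd terms -/
theorem quick_od {s : ℤ} (hs : s = 1 ∨ s = -1) {k : ℕ} (hk : 1000 ≤ k) {m : ℤ} (h1 : (2 : ℝ) ^ k ≤ m)
    (h2 : (m : ℝ) < 2 ^ (k + 1)) (hb : m ∈ Quick s) :
    ∃ j ≤ k, (k : ℝ) / 20 ≤ j ∧ (od s j m : ℝ) < 47 / 100 * (j : ℝ) := by
  obtain ⟨hm, hb⟩ := hb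
  have hmR : (0 : ℝ) < m := by exact_mod_cast hm
  have hl := log32
  have hl2 : 0 < Real.log 2 := Real.log_pos (by norm_num)
  have hkR : (1000 : ℝ) ≤ k := by exact_mod_cast hk
  have hlm : (k : ℝ) * Real.log 2 ≤ Real.log m := by
    rw [← Real.log_pow]; exact Real.log_le_log (by positivity) h1
  unfold Slow at hb
  push Not at hb
  obtain ⟨k', h3, h4, j, hj, h5⟩ := hb
  have hkk : k' = k := by
    have a1 : (2 : ℝ) ^ k < 2 ^ (k' + 1) := lt_of_le_of_lt h1 h4
    have a2 : (2 : ℝ) ^ k' < 2 ^ (k + 1) := lt_of_le_of_lt h3 h2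
    rw [pow_lt_pow_iff_right₀ (by norm_num)] at a1 a2
    omega
  subst hkk
  -- an index below k'
  obtain ⟨i, hi, h6⟩ : ∃ i : ℕ, i + 1 ≤ k' ∧ (((Tz s)^[i] m : ℤ) : ℝ) < 2 * (m : ℝ) ^ (7 / 10 : ℝ) := by
    rcases Nat.lt_or_ge j k' with h | h
    · refine ⟨j, h, ?_⟩
      have : 0 < (m : ℝ) ^ (7 / 10 : ℝ) := by positivity
      linarith
    · obtain ⟨i, rfl⟩ : ∃ i, j = i + 1 := ⟨j - 1, by omega⟩
      refine ⟨i, by omega, ?_⟩
      rw [Function.iterate_succ_apply'] at h5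
      have h7 := Tz_half hs (Tpos_iter hs hm i)
      have h8 : (((Tz s)^[i] m : ℤ) : ℝ) ≤ 2 * ((Tz s ((Tz s)^[i] m) : ℤ) : ℝ) := by exact_mod_cast h7
      linarith
  have h7 := iter_ge1 hs m i
  have h8 : (2 : ℝ) ^ (i + 1) ≤ m := le_trans (pow_le_pow_right₀ (by norm_num) hi) h1
  have h9 : (m : ℝ) / 2 ^ (i + 1) ≤ m / 2 ^ i - 1 := by
    have h10 : (m : ℝ) / 2 ^ i = 2 * (m / 2 ^ (i + 1)) := by rw [pow_succ]; field_simp
    have h11 : 1 ≤ (m : ℝ) / 2 ^ (i + 1) := by rw [le_div_iff₀ (by positivity)]; linarith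
    linarith
  have h10 : (3 : ℝ) ^ od s i m * (m / 2 ^ (i + 1)) < 2 * (m : ℝ) ^ (7 / 10 : ℝ) :=
    lt_of_le_of_lt ((mul_le_mul_of_nonneg_left h9 (by positivity)).trans h7) h6
  have h11 := Real.log_lt_log (by positivity) h10
  rw [Real.log_mul (by positivity) (by positivity), Real.log_mul (by positivity) (by positivity),
    Real.log_rpow hmR, Real.log_div (by positivity) (by positivity), Real.log_pow, Real.log_pow] at h11
  push_cast at h11
  have ho : (0 : ℝ) ≤ od s i m := Nat.cast_nonneg _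
  have hi0 : (0 : ℝ) ≤ i := Nat.cast_nonneg _
  have hiR : (i : ℝ) + 1 ≤ k' := by exact_mod_cast hi
  have h12 : (od s i m : ℝ) * (158 / 100 * Real.log 2) ≤ od s i m * Real.log 3 := mul_le_mul_of_nonneg_left hl ho
  have h13 : ((od s i m : ℝ) * (158 / 100) + 3 / 10 * k') * Real.log 2 < (i + 2) * Real.log 2 := by nlinarith
  have h14 := lt_of_mul_lt_mul_right h13 hl2.le
  refine ⟨i, by omega, ?_, ?_⟩
  · nlinarith
  · have h15 : (k' : ℝ) / 20 ≤ i := by nlinarith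
    nlinarith

open scoped Classical in
/-- the number of quick integers in a dyadic block -/
theorem quick_block {s : ℤ} (hs : s = 1 ∨ s = -1) : ∃ τ C : ℝ, 0 < τ ∧ τ < 1 ∧ 0 < C ∧ ∀ k : ℕ,
    (((Wn ((2 : ℝ) ^ k)).filter (fun m => m ∈ Quick s)).card : ℝ) ≤ C * τ ^ k * 2 ^ k := by
  have hs2 : s % 2 = 1 := by rcases hs with rfl | rfl <;> norm_num
  obtain ⟨ρ2, hρ2, hρ2', H2⟩ := od_small hs2 (c₀ := 47 / 100) (by norm_num)
  set a : ℝ := ρ2 ^ (1 / 20 : ℝ) with ha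
  have ha0 : 0 < a := by positivity
  have ha1 : a < 1 := Real.rpow_lt_one hρ2.le hρ2' (by norm_num)
  obtain ⟨τ, hτ1, hτ2⟩ := exists_between ha1
  have hτ0 : 0 < τ := ha0.trans hτ1
  have hq : a / τ < 1 := by rw [div_lt_one hτ0]; exact hτ1
  have hq0 : 0 < a / τ := by positivity
  obtain ⟨M, hM⟩ : ∃ M : ℝ, ∀ k : ℕ, (k + 1 : ℝ) * (a / τ) ^ k ≤ M := by
    have h1 : Tendsto (fun k : ℕ => (k : ℝ) * (a / τ) ^ k) atTop (𝓝 0) :=
      tendsto_self_mul_const_pow_of_lt_one hq0.le hq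
    have h2 : Tendsto (fun k : ℕ => (a / τ) ^ k) atTop (𝓝 0) := tendsto_pow_atTop_nhds_zero_of_lt_one hq0.le hq
    have h3 : Tendsto (fun k : ℕ => (k + 1 : ℝ) * (a / τ) ^ k) atTop (𝓝 0) := by
      have := h1.add h2
      simp only [add_zero] at this
      refine this.congr fun k => ?_
      ring
    obtain ⟨M, hM⟩ := h3.bddAbove_range
    exact ⟨M, fun k => hM ⟨k, rfl⟩⟩
  have hM0 : 0 < M := lt_of_lt_of_le (by norm_num : (0 : ℝ) < 1) (by have := hM 0; simpa using this)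
  refine ⟨τ, 2 * M + 2 / τ ^ 1000, hτ0, hτ2, by positivity, fun k => ?_⟩
  rcases Nat.lt_or_ge k 1000 with hk | hk
  · have h1 : (((Wn ((2 : ℝ) ^ k)).filter (fun m => m ∈ Quick s)).card : ℝ) ≤ 2 ^ k + 1 := by
      refine le_trans ?_ (Pool.Agent.R344.SP.Wn_card (A := (2 : ℝ) ^ k) (by positivity))
      exact_mod_cast card_filter_le _ _
    have h2 : (1 : ℝ) ≤ 2 ^ k := one_le_pow₀ (by norm_num)
    have h3 : τ ^ 1000 ≤ τ ^ k := pow_le_pow_of_le_one hτ0.le hτ2.le hk.le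
    have h4 : 1 ≤ 1 / τ ^ 1000 * τ ^ k := by
      rw [one_div, ← div_eq_inv_mul, le_div_iff₀ (by positivity)]; linarith
    have h5 : (2 : ℝ) * 2 ^ k ≤ (2 / τ ^ 1000) * τ ^ k * 2 ^ k := by
      have : (2 / τ ^ 1000) * τ ^ k * 2 ^ k = (1 / τ ^ 1000 * τ ^ k) * (2 * 2 ^ k) := by ring
      rw [this]
      nlinarith
    have h6 : 0 ≤ 2 * M * τ ^ k * 2 ^ k := by positivity
    calc _ ≤ (2 : ℝ) ^ k + 1 := h1
      _ ≤ 2 * 2 ^ k := by linarith
      _ ≤ (2 / τ ^ 1000) * τ ^ k * 2 ^ k := h5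
      _ ≤ (2 * M + 2 / τ ^ 1000) * τ ^ k * 2 ^ k := by
        have : (2 * M + 2 / τ ^ 1000) * τ ^ k * 2 ^ k = 2 * M * τ ^ k * 2 ^ k + (2 / τ ^ 1000) * τ ^ k * 2 ^ k := by ring
        linarith
  · have hsub : (Wn ((2 : ℝ) ^ k)).filter (fun m => m ∈ Quick s) ⊆
        ((range (k + 1)).filter (fun j : ℕ => (k : ℝ) / 20 ≤ j)).biUnion
          (fun j => (Wn ((2 : ℝ) ^ k)).filter (fun n => (od s j n : ℝ) < 47 / 100 * (j : ℝ))) := by
      intro m hm
      rw [mem_filter, mem_Wn] at hm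
      have h2 : (m : ℝ) < 2 ^ (k + 1) := by rw [pow_succ]; linarith [hm.1.2]
      obtain ⟨j, hj, h3, h4⟩ := quick_od hs hk hm.1.1 h2 hm.2
      rw [mem_biUnion]
      exact ⟨j, by rw [mem_filter, mem_range]; exact ⟨by omega, h3⟩, by rw [mem_filter, mem_Wn]; exact ⟨hm.1, h4⟩⟩
    have h1 := (card_le_card hsub).trans card_biUnion_le
    have h2 : (((Wn ((2 : ℝ) ^ k)).filter (fun m => m ∈ Quick s)).card : ℝ) ≤
        ∑ j ∈ (range (k + 1)).filter (fun j : ℕ => (k : ℝ) / 20 ≤ j),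
          (((Wn ((2 : ℝ) ^ k)).filter (fun n => (od s j n : ℝ) < 47 / 100 * (j : ℝ))).card : ℝ) := by
      exact_mod_cast h1
    have h5 : ∀ j ∈ (range (k + 1)).filter (fun j : ℕ => (k : ℝ) / 20 ≤ j),
        (((Wn ((2 : ℝ) ^ k)).filter (fun n => (od s j n : ℝ) < 47 / 100 * (j : ℝ))).card : ℝ) ≤ 2 * 2 ^ k * a ^ k := by
      intro j hj
      rw [mem_filter, mem_range] at hj
      have h6 := H2 j ((2 : ℝ) ^ k) (by positivity)
      have h7 : (2 : ℝ) ^ j ≤ 2 ^ k := pow_le_pow_right₀ (by norm_num) (by omega)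
      have h8 : ρ2 ^ j ≤ a ^ k := by
        have e1 : ρ2 ^ j ≤ ρ2 ^ ((k : ℝ) / 20) := by
          rw [← Real.rpow_natCast]
          exact Real.rpow_le_rpow_of_exponent_ge hρ2 hρ2'.le hj.2
        have e2 : ρ2 ^ ((k : ℝ) / 20) = a ^ k := by
          rw [ha, ← Real.rpow_natCast, ← Real.rpow_mul hρ2.le]
          congr 1; ring
        rwa [e2] at e1
      calc _ ≤ ((2 : ℝ) ^ k + 2 ^ j) * ρ2 ^ j := h6
        _ ≤ (2 * 2 ^ k) * a ^ k := mul_le_mul (by linarith) h8 (by positivity) (by positivity)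
    have h6 : ∑ j ∈ (range (k + 1)).filter (fun j : ℕ => (k : ℝ) / 20 ≤ j),
          (((Wn ((2 : ℝ) ^ k)).filter (fun n => (od s j n : ℝ) < 47 / 100 * (j : ℝ))).card : ℝ)
        ≤ (k + 1) * (2 * 2 ^ k * a ^ k) := by
      refine (sum_le_sum h5).trans ?_
      rw [sum_const, nsmul_eq_mul]
      apply mul_le_mul_of_nonneg_right _ (by positivity)
      have := card_filter_le (range (k + 1)) (fun j : ℕ => (k : ℝ) / 20 ≤ j)
      rw [card_range] at this
      exact_mod_cast this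
    have h8 := hM k
    have h9 : a ^ k = (a / τ) ^ k * τ ^ k := by rw [div_pow]; field_simp
    have h10 : (k + 1 : ℝ) * a ^ k ≤ M * τ ^ k := by
      rw [h9, ← mul_assoc]
      exact mul_le_mul_of_nonneg_right h8 (by positivity)
    calc _ ≤ (k + 1) * (2 * 2 ^ k * a ^ k) := h2.trans h6
      _ = 2 * 2 ^ k * ((k + 1 : ℝ) * a ^ k) := by ring
      _ ≤ 2 * 2 ^ k * (M * τ ^ k) := mul_le_mul_of_nonneg_left h10 (by positivity)
      _ = 2 * M * τ ^ k * 2 ^ k := by ring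
      _ ≤ (2 * M + 2 / τ ^ 1000) * τ ^ k * 2 ^ k := by
        have : (2 * M + 2 / τ ^ 1000) * τ ^ k * 2 ^ k = 2 * M * τ ^ k * 2 ^ k + (2 / τ ^ 1000) * τ ^ k * 2 ^ k := by ring
        have h11 : 0 ≤ (2 / τ ^ 1000) * τ ^ k * 2 ^ k := by positivity
        linarith

/-- the integers without regular descent -/
def Irr (s : ℤ) : Set ℤ := Bad s ∪ Quick s

open scoped Classical in
/-- a set with few elements in dyadic blocks is thin -/
theorem thin_block {A : Set ℤ} (hA : ∀ m ∈ A, 0 < m) {τ0 C : ℝ} (h0 : 0 < τ0) (h1 : τ0 < 1) (hC : 0 < C)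
    (H : ∀ k : ℕ, (((Wn ((2 : ℝ) ^ k)).filter (fun m => m ∈ A)).card : ℝ) ≤ C * τ0 ^ k * 2 ^ k) :
    ∃ X0 : ℝ, 1 ≤ X0 ∧ ∀ Y : ℝ, ∀ X : ℝ, X0 ≤ X →
    ((fA A Y X).card : ℝ) ≤ X * Real.exp (-(Real.log X) ^ (1 / 2 : ℝ)) := by
  set τ : ℝ := max τ0 (3 / 4) with hτ
  have hτ0 : 0 < τ := lt_of_lt_of_le h0 (le_max_left _ _)
  have hτ1 : τ < 1 := max_lt h1 (by norm_num)
  have hτ34 : 3 / 4 ≤ τ := le_max_right _ _
  have hl2 : 0 < Real.log 2 := Real.log_pos (by norm_num)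
  have hlτ : Real.log τ < 0 := Real.log_neg hτ0 hτ1
  set c : ℝ := -Real.log τ / Real.log 2 with hc
  have hc0 : 0 < c := div_pos (by linarith) hl2
  set C' : ℝ := 4 * C / τ + 1 with hC'
  have hC'1 : 1 ≤ C' := by rw [hC']; have : 0 ≤ 4 * C / τ := by positivity
                           linarith
  -- the count
  have count : ∀ Y X : ℝ, 1 ≤ X → ((fA A Y X).card : ℝ) ≤ C' * X * Real.exp (-(c * Real.log X)) := by
    intro Y X hX
    have hX0 : 0 < X := by linarith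
    obtain ⟨K, hK1, hK2⟩ : ∃ K : ℕ, (2 : ℝ) ^ K ≤ X ∧ X < 2 ^ (K + 1) := exists_nat_pow_near hX (by norm_num)
    have hsub : fA A Y X ⊆ (range (K + 1)).biUnion (fun k => (Wn ((2 : ℝ) ^ k)).filter (fun m => m ∈ A)) := by
      intro m hm
      rw [mem_fA] at hm
      have hm1 : (1 : ℝ) ≤ m := by
        have : 0 < m := hA m hm.2
        exact_mod_cast this
      obtain ⟨k, hk1, hk2⟩ : ∃ k : ℕ, (2 : ℝ) ^ k ≤ m ∧ (m : ℝ) < 2 ^ (k + 1) := exists_nat_pow_near hm1 (by norm_num)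
      rw [mem_biUnion]
      refine ⟨k, ?_, ?_⟩
      · rw [mem_range]
        have : (2 : ℝ) ^ k < 2 ^ (K + 1) := lt_of_le_of_lt (hk1.trans hm.1.2) hK2
        rwa [pow_lt_pow_iff_right₀ (by norm_num)] at this
      · rw [mem_filter, mem_Wn]
        exact ⟨⟨hk1, by rw [pow_succ] at hk2; linarith⟩, hm.2⟩
    have h3 : ((fA A Y X).card : ℝ) ≤ ∑ k ∈ range (K + 1), C * (2 * τ) ^ k := by
      have h4 : ((fA A Y X).card : ℝ) ≤ ∑ k ∈ range (K + 1), (((Wn ((2 : ℝ) ^ k)).filter (fun m => m ∈ A)).card : ℝ) := by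
        exact_mod_cast (card_le_card hsub).trans card_biUnion_le
      refine h4.trans (sum_le_sum fun k _ => (H k).trans ?_)
      have h5 : τ0 ^ k ≤ τ ^ k := pow_le_pow_left₀ h0.le (le_max_left _ _) k
      calc C * τ0 ^ k * 2 ^ k ≤ C * τ ^ k * 2 ^ k := by
            apply mul_le_mul_of_nonneg_right _ (by positivity)
            exact mul_le_mul_of_nonneg_left h5 hC.le
        _ = C * (2 * τ) ^ k := by rw [mul_pow]; ring
    have h4 : ∑ k ∈ range (K + 1), (2 * τ) ^ k ≤ 4 * (2 * τ) ^ K := by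
      have h5 : (2 * τ) ≠ 1 := by linarith
      rw [geom_sum_eq h5, div_le_iff₀ (by linarith), pow_succ]
      have h6 : 0 < (2 * τ) ^ K := by positivity
      nlinarith
    rw [← mul_sum] at h3
    have h5 : ((fA A Y X).card : ℝ) ≤ 4 * C * (X * τ ^ K) := by
      calc _ ≤ C * ∑ k ∈ range (K + 1), (2 * τ) ^ k := h3
        _ ≤ C * (4 * (2 * τ) ^ K) := mul_le_mul_of_nonneg_left h4 hC.le
        _ = 4 * C * (2 ^ K * τ ^ K) := by rw [mul_pow]; ring
        _ ≤ _ := by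
          apply mul_le_mul_of_nonneg_left _ (by positivity)
          exact mul_le_mul_of_nonneg_right hK1 (by positivity)
    have h6 : τ ^ K ≤ 1 / τ * Real.exp (-(c * Real.log X)) := by
      have h7 : Real.log X < (K + 1) * Real.log 2 := by
        have := Real.log_lt_log hX0 hK2
        rw [Real.log_pow] at this
        push_cast at this
        exact this
      have h8 : c * Real.log X ≤ -(K + 1) * Real.log τ := by
        rw [hc, div_mul_eq_mul_div, div_le_iff₀ hl2]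
        nlinarith
      have h9 : τ ^ K = 1 / τ * Real.exp ((K + 1) * Real.log τ) := by
        have : (K + 1 : ℝ) * Real.log τ = Real.log (τ ^ (K + 1)) := by rw [Real.log_pow]; push_cast; ring
        rw [this, Real.exp_log (by positivity), pow_succ]
        field_simp
      rw [h9]
      apply mul_le_mul_of_nonneg_left _ (by positivity)
      apply Real.exp_le_exp.2
      linarith
    calc _ ≤ 4 * C * (X * τ ^ K) := h5
      _ ≤ 4 * C * (X * (1 / τ * Real.exp (-(c * Real.log X)))) := by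
        apply mul_le_mul_of_nonneg_left _ (by positivity)
        exact mul_le_mul_of_nonneg_left h6 hX0.le
      _ = 4 * C / τ * X * Real.exp (-(c * Real.log X)) := by ring
      _ ≤ C' * X * Real.exp (-(c * Real.log X)) := by
        apply mul_le_mul_of_nonneg_right _ (by positivity)
        apply mul_le_mul_of_nonneg_right _ hX0.le
        rw [hC']; linarith
  refine ⟨Real.exp (4 / c ^ 2 + 2 * Real.log C' / c), ?_, fun Y X hX => ?_⟩
  · apply Real.one_le_exp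
    have := Real.log_nonneg hC'1
    positivity
  · have hX1 : 1 ≤ X := by
      refine le_trans ?_ hX
      apply Real.one_le_exp
      have := Real.log_nonneg hC'1
      positivity
    have hX0 : 0 < X := by linarith
    have hL : 4 / c ^ 2 + 2 * Real.log C' / c ≤ Real.log X := by
      rw [← Real.log_exp (4 / c ^ 2 + 2 * Real.log C' / c)]
      exact Real.log_le_log (Real.exp_pos _) hX
    set L := Real.log X with hLdef
    have hlC := Real.log_nonneg hC'1
    have a1 : 4 / c ^ 2 ≤ L := by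
      have : 0 ≤ 2 * Real.log C' / c := by positivity
      linarith
    have a2 : 2 * Real.log C' / c ≤ L := by
      have : 0 ≤ 4 / c ^ 2 := by positivity
      linarith
    have hL0 : 0 < L := lt_of_lt_of_le (by positivity) a1
    have a3 : L ^ (1 / 2 : ℝ) ≤ c * L / 2 := by
      rw [← Real.sqrt_eq_rpow]
      rw [Real.sqrt_le_left (by positivity)]
      rw [div_le_iff₀ (by positivity)] at a1
      have : (c * L / 2) ^ 2 = L * (L * c ^ 2) / 4 := by ring
      rw [this]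
      nlinarith
    have a4 : Real.log C' ≤ c * L / 2 := by
      rw [div_le_iff₀ hc0] at a2
      linarith
    have h3 := count Y X hX1
    refine h3.trans ?_
    have h4 : C' * Real.exp (-(c * L)) ≤ Real.exp (-L ^ (1 / 2 : ℝ)) := by
      have : C' = Real.exp (Real.log C') := (Real.exp_log (by linarith)).symm
      rw [this, ← Real.exp_add]
      apply Real.exp_le_exp.2
      linarith
    calc C' * X * Real.exp (-(c * L)) = X * (C' * Real.exp (-(c * L))) := by ring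
      _ ≤ _ := mul_le_mul_of_nonneg_left h4 hX0.le

theorem Irr_pos {s : ℤ} : ∀ m ∈ Irr s, 0 < m := by
  rintro m (h | h)
  · exact h.1
  · exact h.1

theorem irr_thin {s : ℤ} (hs : s = 1 ∨ s = -1) : ∃ X0 : ℝ, 1 ≤ X0 ∧ ∀ Y : ℝ, ∀ X : ℝ, X0 ≤ X →
    ((fA (Irr s) Y X).card : ℝ) ≤ X * Real.exp (-(Real.log X) ^ (1 / 2 : ℝ)) := by
  classical
  obtain ⟨τ1, C1, a1, a2, a3, H1⟩ := bad_block hs
  obtain ⟨τ2, C2, b1, b2, b3, H2⟩ := quick_block hs
  refine thin_block Irr_pos (τ0 := max τ1 τ2) (C := C1 + C2) (lt_of_lt_of_le a1 (le_max_left _ _)) (max_lt a2 b2)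
    (by positivity) fun k => ?_
  have h1 : (Wn ((2 : ℝ) ^ k)).filter (fun m => m ∈ Irr s) ⊆ (Wn ((2 : ℝ) ^ k)).filter (fun m => m ∈ Bad s) ∪
      (Wn ((2 : ℝ) ^ k)).filter (fun m => m ∈ Quick s) := by
    intro m hm
    rw [mem_filter] at hm
    rw [mem_union, mem_filter, mem_filter]
    rcases hm.2 with h | h
    · exact Or.inl ⟨hm.1, h⟩
    · exact Or.inr ⟨hm.1, h⟩
  have h2 := (card_le_card h1).trans (card_union_le _ _)
  have h3 : (((Wn ((2 : ℝ) ^ k)).filter (fun m => m ∈ Irr s)).card : ℝ) ≤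
      ((Wn ((2 : ℝ) ^ k)).filter (fun m => m ∈ Bad s)).card + ((Wn ((2 : ℝ) ^ k)).filter (fun m => m ∈ Quick s)).card := by
    exact_mod_cast h2
  have h4 : C1 * τ1 ^ k * 2 ^ k ≤ C1 * (max τ1 τ2) ^ k * 2 ^ k := by
    apply mul_le_mul_of_nonneg_right _ (by positivity)
    exact mul_le_mul_of_nonneg_left (pow_le_pow_left₀ a1.le (le_max_left _ _) k) a3.le
  have h5 : C2 * τ2 ^ k * 2 ^ k ≤ C2 * (max τ1 τ2) ^ k * 2 ^ k := by
    apply mul_le_mul_of_nonneg_right _ (by positivity)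
    exact mul_le_mul_of_nonneg_left (pow_le_pow_left₀ b1.le (le_max_right _ _) k) b3.le
  have h6 := H1 k
  have h7 := H2 k
  calc _ ≤ C1 * (max τ1 τ2) ^ k * 2 ^ k + C2 * (max τ1 τ2) ^ k * 2 ^ k := by linarith
    _ = _ := by ring

open scoped Classical in
/-- almost all trajectories avoid the irregular integers -/
theorem irr_avoid {s : ℤ} (hs : s = 1 ∨ s = -1) {ε : ℝ} (hε : 0 < ε) : ∃ Y0 : ℝ, 2 ≤ Y0 ∧ ∀ Y : ℝ, Y0 ≤ Y →
    ∀ N : ℕ, (((Icc (1 : ℤ) N).filter (fun n => n ∈ HY s (Irr s) Y)).card : ℝ) ≤ ε * N := by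
  have hodd : Odd s := by rcases hs with rfl | rfl <;> decide
  have hco : IsCoprime s 3 := by
    rcases hs with rfl | rfl
    · exact isCoprime_one_left
    · exact (isCoprime_one_left).neg_left
  obtain ⟨L, K, hL, hK, H⟩ := Pool.Agent.R105.CZ.thin_Tz hodd hco (δ := 1 / 2) (by norm_num) 1
  obtain ⟨X0, hX0, HX⟩ := irr_thin hs
  refine ⟨max (max 2 X0) (Real.exp (max L (K / ε))), (le_max_left _ _).trans (le_max_left _ _), fun Y hY N => ?_⟩
  have h2 : 2 ≤ Y := ((le_max_left _ _).trans (le_max_left _ _)).trans hY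
  have h3 : X0 ≤ Y := ((le_max_right _ _).trans (le_max_left _ _)).trans hY
  have h4 : Real.exp (max L (K / ε)) ≤ Y := (le_max_right _ _).trans hY
  have h5 : max L (K / ε) ≤ Real.log Y := by
    rw [← Real.log_exp (max L (K / ε))]
    exact Real.log_le_log (Real.exp_pos _) h4
  have h6 := H Y (by linarith) ((le_max_left _ _).trans h5) (Irr s) (fun X hX => HX Y X (h3.trans hX)) N
  rw [pow_one] at h6
  refine h6.trans ?_
  have h7 : K / ε ≤ Real.log Y := (le_max_right _ _).trans h5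
  have h8 : 0 < Real.log Y := Real.log_pos (by linarith)
  rw [div_le_iff₀ h8]
  rw [div_le_iff₀ hε] at h7
  have : (0 : ℝ) ≤ N := Nat.cast_nonneg N
  nlinarith

end Pool.Agent.H623.RB
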