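import Pool.Agent.H623.RB.A

/-! Robustness, part B: sums of a nonincreasing function along a regular trajectory. -/

set_option autoImplicit false

namespace Pool.Agent.H623.RB

open Finset Filter Topology
open Pool.Agent.H623.TG
open Pool.Agent.H499R2.CO (Tz)
open Pool.Agent.R344.SP (od od_succ od_le Wn mem_Wn)
open Pool.Agent.R344.TH (Tz_even Tz_odd fA mem_fA HY HY_cons Cz Cz_even Cz_odd Cz_Cz_odd)

/-- the trajectory of `C` next to the trajectory of `T` -/
theorem CT {s : ℤ} (hs : s = 1 ∨ s = -1) {n : ℤ} (hn : 0 < n) : ∀ t : ℕ, ∃ i : ℕ, t ≤ i ∧ i ≤ 2 * t ∧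
    (Cz s)^[i] n = (Tz s)^[t] n ∧ ∀ a < i, ∃ j < t, (Tz s)^[j] n ≤ (Cz s)^[a] n ∧ (Cz s)^[a] n ≤ 4 * (Tz s)^[j] n
  | 0 => ⟨0, le_rfl, le_rfl, rfl, fun a ha => by omega⟩
  | t + 1 => by
    obtain ⟨i, h1, h2, h3, h4⟩ := CT hs hn t
    have hpos := Tpos_iter hs hn t
    rcases Int.emod_two_eq_zero_or_one ((Tz s)^[t] n) with hp | hp
    · refine ⟨i + 1, by omega, by omega, ?_, fun a ha => ?_⟩
      · rw [Function.iterate_succ_apply', h3, Function.iterate_succ_apply', Cz_even hp]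
      · rcases Nat.lt_or_ge a i with h | h
        · obtain ⟨j, hj, h5⟩ := h4 a h
          exact ⟨j, by omega, h5⟩
        · have : a = i := by omega
          subst this
          exact ⟨t, by omega, by rw [h3], by rw [h3]; omega⟩
    · have hs2 : s % 2 = 1 := by rcases hs with rfl | rfl <;> norm_num
      refine ⟨i + 2, by omega, by omega, ?_, fun a ha => ?_⟩
      · rw [Function.iterate_succ_apply', Function.iterate_succ_apply', h3, Function.iterate_succ_apply',
          Cz_Cz_odd hs2 (by omega)]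
      · rcases Nat.lt_or_ge a i with h | h
        · obtain ⟨j, hj, h5⟩ := h4 a h
          exact ⟨j, by omega, h5⟩
        · rcases Nat.eq_or_lt_of_le h with h' | h'
          · subst h'
            exact ⟨t, by omega, by rw [h3], by rw [h3]; omega⟩
          · have : a = i + 1 := by omega
            subst this
            refine ⟨t, by omega, ?_, ?_⟩
            · rw [Function.iterate_succ_apply', h3, Cz_odd (by omega)]
              rcases hs with rfl | rfl <;> omega
            · rw [Function.iterate_succ_apply', h3, Cz_odd (by omega)]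
              rcases hs with rfl | rfl <;> omega

section
variable {p : ℕ → ℝ} (hp : Antitone p) (hp0 : ∀ n, 0 ≤ p n)

/-- the sum along the trajectory -/
noncomputable def SC (p : ℕ → ℝ) (s n : ℤ) (i : ℕ) : ℝ := ∑ a ∈ range i, p ((Cz s)^[a] n).natAbs

/-- the sum over the powers of two -/
noncomputable def Ps (p : ℕ → ℝ) (m : ℕ) : ℝ := ∑ k ∈ range m, p (2 ^ k)

include hp0 in
theorem Ps_mono {a b : ℕ} (h : a ≤ b) : Ps p a ≤ Ps p b :=
  sum_le_sum_of_subset_of_nonneg (range_mono h) fun _ _ _ => hp0 _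

include hp in
theorem Ps_ge {a b : ℕ} (h : a ≤ b) : ((b : ℝ) - a) * p (2 ^ b) ≤ Ps p b - Ps p a := by
  unfold Ps
  rw [← sum_range_add_sum_Ico _ h, add_sub_cancel_left]
  have h1 : ∑ _k ∈ Ico a b, p (2 ^ b) ≤ ∑ k ∈ Ico a b, p (2 ^ k) := by
    apply sum_le_sum
    intro k hk
    rw [mem_Ico] at hk
    exact hp (Nat.pow_le_pow_right (by norm_num) hk.2.le)
  rw [sum_const, Nat.card_Ico, nsmul_eq_mul, Nat.cast_sub h] at h1
  exact h1

include hp in
theorem Ps_le {a b : ℕ} (h : a ≤ b) : Ps p b - Ps p a ≤ ((b : ℝ) - a) * p (2 ^ a) := by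
  unfold Ps
  rw [← sum_range_add_sum_Ico _ h, add_sub_cancel_left]
  have h1 : ∑ k ∈ Ico a b, p (2 ^ k) ≤ ∑ _k ∈ Ico a b, p (2 ^ a) := by
    apply sum_le_sum
    intro k hk
    rw [mem_Ico] at hk
    exact hp (Nat.pow_le_pow_right (by norm_num) hk.1)
  rw [sum_const, Nat.card_Ico, nsmul_eq_mul, Nat.cast_sub h] at h1
  exact h1

include hp in
theorem p_le_pow {v : ℤ} {x : ℝ} {j : ℕ} (hv : x ≤ v) (hj : (2 : ℝ) ^ j ≤ x) : p v.natAbs ≤ p (2 ^ j) := by
  apply hp
  have h1 : (2 : ℝ) ^ j ≤ (v : ℝ) := hj.trans hv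
  have h2 : ((2 ^ j : ℤ) : ℝ) ≤ v := by push_cast; exact h1
  have h3 : (2 ^ j : ℤ) ≤ v := by exact_mod_cast h2
  have h4 : (0 : ℤ) < 2 ^ j := by positivity
  have h5 : ((2 ^ j : ℕ) : ℤ) ≤ (v.natAbs : ℤ) := by rw [Int.natAbs_of_nonneg (by omega)]; push_cast; exact h3
  exact_mod_cast h5

include hp in
theorem pow_le_p {v : ℤ} {x : ℝ} {j : ℕ} (hv0 : 0 < v) (hv : v ≤ x) (hj : x ≤ (2 : ℝ) ^ j) : p (2 ^ j) ≤ p v.natAbs := by
  apply hp
  have h1 : (v : ℝ) ≤ (2 : ℝ) ^ j := hv.trans hj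
  have h2 : (v : ℝ) ≤ ((2 ^ j : ℤ) : ℝ) := by push_cast; exact h1
  have h3 : v ≤ (2 ^ j : ℤ) := by exact_mod_cast h2
  have h5 : (v.natAbs : ℤ) ≤ ((2 ^ j : ℕ) : ℤ) := by rw [Int.natAbs_of_nonneg hv0.le]; push_cast; exact h3
  exact_mod_cast h5

theorem SC_add (p : ℕ → ℝ) {s n m : ℤ} {i j : ℕ} (h : (Cz s)^[i] n = m) : SC p s n (i + j) = SC p s n i + SC p s m j := by
  unfold SC
  rw [sum_range_add]
  congr 1
  apply sum_congr rfl
  intro a _
  rw [add_comm i a, Function.iterate_add_apply, h]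

theorem pow_rpow (k : ℕ) (c : ℝ) : ((2 : ℝ) ^ k) ^ c = 2 ^ ((k : ℝ) * c) := by
  rw [← Real.rpow_natCast, ← Real.rpow_mul (by norm_num)]

include hp hp0 in
theorem desc {s : ℤ} (hs : s = 1 ∨ s = -1) {Y : ℝ} {l : ℕ} (hl : 120 ≤ l) (hY1 : (2 : ℝ) ^ l ≤ Y) (hY2 : Y < 2 ^ (l + 1)) :
    ∀ (b : ℕ) (n : ℤ), n.toNat ≤ b → 0 < n → n ∉ HY s (Irr s) Y → Y ≤ n → ∀ k : ℕ, (2 : ℝ) ^ k ≤ n →
      (n : ℝ) < 2 ^ (k + 1) → ∃ i : ℕ, (((Cz s)^[i] n : ℤ) : ℝ) < Y ∧
      (∀ a < i, Y ≤ (((Cz s)^[a] n : ℤ) : ℝ)) ∧ SC p s n i ≤ 100 * (Ps p (7 * k / 10) - Ps p (l / 2)) ∧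
      1 / 2 * (Ps p (2 * k) - Ps p (3 * l + 3)) ≤ SC p s n i
  | 0, n, hb, hn, _, _, _, _, _ => by omega
  | b + 1, n, hb, hn, hH, hnY, k, hk1, hk2 => by
    have hn1 : (1 : ℝ) ≤ n := by exact_mod_cast hn
    have hn0 : (0 : ℝ) ≤ n := by linarith
    have hlk : l ≤ k := by
      have : (2 : ℝ) ^ l < 2 ^ (k + 1) := lt_of_le_of_lt (hY1.trans hnY) hk2
      rw [pow_lt_pow_iff_right₀ (by norm_num)] at this
      omega
    have hnI : n ∉ Irr s := by
      intro hcon
      apply hH
      refine ⟨0, hcon, fun j hj => ?_⟩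
      have : j = 0 := by omega
      subst this
      exact hnY
    have hgood : Good s n := by
      by_contra hcon
      exact hnI (Or.inl ⟨hn, hcon⟩)
    have hslow : Slow s n := by
      by_contra hcon
      exact hnI (Or.inr ⟨hn, hcon⟩)
    obtain ⟨hg1, hg2⟩ := hgood k hk1 hk2
    have hsl := hslow k hk1 hk2
    have hkR : (120 : ℝ) ≤ k := by exact_mod_cast hl.trans hlk
    -- lower bound for the elements of the block
    have hlow : (2 : ℝ) ^ (7 * k / 10) ≤ (n : ℝ) ^ (7 / 10 : ℝ) := by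
      calc (2 : ℝ) ^ (7 * k / 10) = 2 ^ (((7 * k / 10 : ℕ) : ℝ)) := (Real.rpow_natCast 2 _).symm
        _ ≤ 2 ^ ((k : ℝ) * (7 / 10)) := by
          apply Real.rpow_le_rpow_of_exponent_le (by norm_num)
          have : ((7 * k / 10 : ℕ) : ℝ) ≤ ((7 * k : ℕ) : ℝ) / 10 := Nat.cast_div_le
          push_cast at this
          linarith
        _ = ((2 : ℝ) ^ k) ^ (7 / 10 : ℝ) := (pow_rpow k _).symm
        _ ≤ _ := Real.rpow_le_rpow (by positivity) hk1 (by norm_num)
    -- upper bound for a block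
    have hup : ∀ i t : ℕ, t ≤ k → i ≤ 2 * t → (∀ a < i, ∃ j < t, (Tz s)^[j] n ≤ (Cz s)^[a] n) →
        ∀ m : ℕ, 200 * m ≤ 133 * (k + 1) → SC p s n i ≤ 100 * (Ps p (7 * k / 10) - Ps p m) := by
      intro i t htk hi hel m hm
      have h1 : SC p s n i ≤ (2 * k : ℝ) * p (2 ^ (7 * k / 10)) := by
        have h2 : SC p s n i ≤ ∑ _a ∈ range i, p (2 ^ (7 * k / 10)) := by
          unfold SC
          apply sum_le_sum
          intro a ha
          rw [mem_range] at ha
          obtain ⟨j, hj, h3⟩ := hel a ha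
          apply p_le_pow hp (x := (((Tz s)^[j] n : ℤ) : ℝ)) (by exact_mod_cast h3)
          exact hlow.trans (hsl j (by omega))
        rw [sum_const, card_range, nsmul_eq_mul] at h2
        refine h2.trans (mul_le_mul_of_nonneg_right ?_ (hp0 _))
        have : i ≤ 2 * k := by omega
        exact_mod_cast this
      have h3 : m ≤ 7 * k / 10 := by omega
      have h4 := Ps_ge hp h3
      have h5 : (m : ℝ) ≤ 133 / 200 * (k + 1) := by
        have : ((200 * m : ℕ) : ℝ) ≤ ((133 * (k + 1) : ℕ) : ℝ) := by exact_mod_cast hm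
        push_cast at this
        linarith
      have h6 : (7 * k / 10 : ℝ) - 1 ≤ ((7 * k / 10 : ℕ) : ℝ) := by
        have h7 : 7 * k < 10 * (7 * k / 10) + 10 := by omega
        have h8 : ((7 * k : ℕ) : ℝ) < ((10 * (7 * k / 10) + 10 : ℕ) : ℝ) := by exact_mod_cast h7
        rw [Nat.cast_add, Nat.cast_mul, Nat.cast_mul] at h8
        push_cast at h8
        linarith
      have h7 : (2 * k : ℝ) ≤ 100 * (((7 * k / 10 : ℕ) : ℝ) - m) := by linarith
      have h8 := mul_le_mul_of_nonneg_right h7 (hp0 (2 ^ (7 * k / 10)))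
      linarith
    by_cases hall : ∀ j ≤ k, Y ≤ (((Tz s)^[j] n : ℤ) : ℝ)
    · -- a full block
      set m := (Tz s)^[k] n with hm
      have hmpos : 0 < m := Tpos_iter hs hn k
      have hmR : (1 : ℝ) ≤ m := by exact_mod_cast hmpos
      have hmlt : (m : ℝ) < n := by
        refine lt_of_le_of_lt hg1 ?_
        calc (n : ℝ) ^ (19 / 20 : ℝ) < (n : ℝ) ^ (1 : ℝ) := by
              apply Real.rpow_lt_rpow_of_exponent_lt _ (by norm_num)
              have : (1 : ℝ) < 2 ^ k := one_lt_pow₀ (by norm_num) (by omega)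
              linarith
          _ = n := Real.rpow_one _
      have hmlt' : m < n := by exact_mod_cast hmlt
      have hmH : m ∉ HY s (Irr s) Y := by
        rintro ⟨k', h1, h2⟩
        apply hH
        refine ⟨k' + k, by rw [Function.iterate_add_apply]; exact h1, fun j hj => ?_⟩
        rcases Nat.lt_or_ge j k with h | h
        · exact hall j h.le
        · obtain ⟨i, rfl⟩ := Nat.exists_eq_add_of_le h
          rw [add_comm k i, Function.iterate_add_apply]
          exact h2 i (by omega)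
      obtain ⟨k', hk'1, hk'2⟩ : ∃ k' : ℕ, (2 : ℝ) ^ k' ≤ m ∧ (m : ℝ) < 2 ^ (k' + 1) := exists_nat_pow_near hmR (by norm_num)
      obtain ⟨i', d1, d2, d3, d4⟩ := desc hs hl hY1 hY2 b m (by omega) hmpos hmH (hall k le_rfl) k' hk'1 hk'2
      obtain ⟨i, c1, c2, c3, c4⟩ := CT hs hn k
      -- the next exponent
      have u1 : 20 * k' < 19 * (k + 1) := by
        have h1 : (2 : ℝ) ^ k' < 2 ^ (((k + 1 : ℕ) : ℝ) * (19 / 20)) := by
          rw [← pow_rpow]
          exact lt_of_le_of_lt (hk'1.trans hg1) (Real.rpow_lt_rpow hn0 hk2 (by norm_num))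
        rw [← Real.rpow_natCast, Real.rpow_lt_rpow_left_iff (by norm_num)] at h1
        push_cast at h1
        have h2 : ((20 * k' : ℕ) : ℝ) < ((19 * (k + 1) : ℕ) : ℝ) := by push_cast; linarith
        exact_mod_cast h2
      have u2 : 7 * k < 10 * (k' + 1) := by
        have h1 : (2 : ℝ) ^ ((k : ℝ) * (7 / 10)) < 2 ^ (k' + 1) := by
          rw [← pow_rpow]
          exact lt_of_le_of_lt ((Real.rpow_le_rpow (by positivity) hk1 (by norm_num)).trans (hsl k le_rfl)) hk'2
        rw [← Real.rpow_natCast 2 (k' + 1), Real.rpow_lt_rpow_left_iff (by norm_num)] at h1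
        push_cast at h1
        have h2 : ((7 * k : ℕ) : ℝ) < ((10 * (k' + 1) : ℕ) : ℝ) := by push_cast; linarith
        exact_mod_cast h2
      refine ⟨i' + i, by rw [Function.iterate_add_apply, c3]; exact d1, fun a ha => ?_, ?_, ?_⟩
      · rcases Nat.lt_or_ge a i with h | h
        · obtain ⟨j, hj, h3, _⟩ := c4 a h
          exact (hall j hj.le).trans (by exact_mod_cast h3)
        · obtain ⟨e, rfl⟩ := Nat.exists_eq_add_of_le h
          rw [add_comm i e, Function.iterate_add_apply, c3]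
          exact d2 e (by omega)
      · rw [add_comm i' i, SC_add p c3]
        have h1 := hup i k le_rfl c2 (fun a ha => by
          obtain ⟨j, hj, h3, _⟩ := c4 a ha
          exact ⟨j, hj, h3⟩) (7 * k' / 10) (by omega)
        linarith
      · rw [add_comm i' i, SC_add p c3]
        have h1 : (k : ℝ) * p (2 ^ (2 * k')) ≤ SC p s n i := by
          have h2 : ∑ _a ∈ range i, p (2 ^ (2 * k')) ≤ SC p s n i := by
            unfold SC
            apply sum_le_sum
            intro a ha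
            rw [mem_range] at ha
            obtain ⟨j, hj, _, h3⟩ := c4 a ha
            apply pow_le_p hp (Cpos_iter hs hn a) (x := 4 * (((Tz s)^[j] n : ℤ) : ℝ)) (by exact_mod_cast h3)
            have h4 := hg2 j hj.le
            have h5 : (n : ℝ) ^ (21 / 20 : ℝ) ≤ 2 ^ (((k + 1 : ℕ) : ℝ) * (21 / 20)) := by
              rw [← pow_rpow]
              exact Real.rpow_le_rpow hn0 hk2.le (by norm_num)
            calc 4 * (((Tz s)^[j] n : ℤ) : ℝ) ≤ 4 * 2 ^ (((k + 1 : ℕ) : ℝ) * (21 / 20)) := by linarith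
              _ = 2 ^ (((k + 1 : ℕ) : ℝ) * (21 / 20) + 2) := by
                rw [Real.rpow_add (by norm_num)]; norm_num; ring
              _ ≤ 2 ^ (((2 * k' : ℕ) : ℝ)) := by
                apply Real.rpow_le_rpow_of_exponent_le (by norm_num)
                have h6 : ((7 * k : ℕ) : ℝ) < ((10 * (k' + 1) : ℕ) : ℝ) := by exact_mod_cast u2
                push_cast at h6 ⊢
                linarith
              _ = 2 ^ (2 * k') := Real.rpow_natCast 2 _
          rw [sum_const, card_range, nsmul_eq_mul] at h2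
          refine le_trans (mul_le_mul_of_nonneg_right ?_ (hp0 _)) h2
          exact_mod_cast c1
        have h3 : 2 * k' ≤ 2 * k := by omega
        have h4 := Ps_le hp h3
        have h5 : (((2 * k : ℕ) : ℝ) - ((2 * k' : ℕ) : ℝ)) * p (2 ^ (2 * k')) ≤ 2 * k * p (2 ^ (2 * k')) := by
          apply mul_le_mul_of_nonneg_right _ (hp0 _)
          push_cast
          have : (0 : ℝ) ≤ k' := Nat.cast_nonneg _
          linarith
        linarith
    · -- a partial block
      push Not at hall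
      obtain ⟨t0, ht0⟩ := hall
      have hex : ∃ t : ℕ, (((Tz s)^[t] n : ℤ) : ℝ) < Y := ⟨t0, ht0.2⟩
      classical
      set t := Nat.find hex with ht
      have ht1 : (((Tz s)^[t] n : ℤ) : ℝ) < Y := Nat.find_spec hex
      have ht2 : ∀ j < t, Y ≤ (((Tz s)^[j] n : ℤ) : ℝ) := fun j hj => not_lt.1 (Nat.find_min hex hj)
      have htk : t ≤ k := (Nat.find_le ht0.2).trans ht0.1
      obtain ⟨i, c1, c2, c3, c4⟩ := CT hs hn t
      refine ⟨i, by rw [c3]; exact ht1, fun a ha => ?_, ?_, ?_⟩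
      · obtain ⟨j, hj, h3, _⟩ := c4 a ha
        exact (ht2 j hj).trans (by exact_mod_cast h3)
      · exact hup i t htk c2 (fun a ha => by
          obtain ⟨j, hj, h3, _⟩ := c4 a ha
          exact ⟨j, hj, h3⟩) (l / 2) (by omega)
      · have h1 : (2 : ℝ) ^ ((k : ℝ) * (7 / 10)) < 2 ^ (l + 1) := by
          rw [← pow_rpow]
          exact lt_trans (lt_of_le_of_lt ((Real.rpow_le_rpow (by positivity) hk1 (by norm_num)).trans (hsl t htk)) ht1) hY2
        rw [← Real.rpow_natCast 2 (l + 1), Real.rpow_lt_rpow_left_iff (by norm_num)] at h1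
        push_cast at h1
        have h2 : ((7 * k : ℕ) : ℝ) < ((10 * (l + 1) : ℕ) : ℝ) := by push_cast; linarith
        have h3 : 7 * k < 10 * (l + 1) := by exact_mod_cast h2
        have h4 : Ps p (2 * k) ≤ Ps p (3 * l + 3) := Ps_mono hp0 (by omega)
        have h5 : 0 ≤ SC p s n i := sum_nonneg fun _ _ => hp0 _
        linarith

end

end Pool.Agent.H623.RB
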