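import Pool.Agent.H623.RB.B
import Pool.Graph.R_seed8.Results.MP_d02c56_nt.PairsMeetLow

/-! Robustness, part C: the graph on an arbitrary vertex set. -/

set_option autoImplicit false

namespace Pool.Agent.H623.RB

open Finset Filter Topology
open Pool.Agent.H623.TG

/-- the edges of the graph with the vertex set `W` -/
def EdgeW (W : Set ℤ) (x y : ℤ) : Prop := x ∈ W ∧ y ∈ W ∧ y = C x

/-- the component of `x` -/
def CompW (W : Set ℤ) (x : ℤ) : Set ℤ := {y | y ∈ W ∧ Relation.EqvGen (EdgeW W) x y}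

/-- the vertices that are left -/
def V (N : ℕ) (D : Set ℤ) : Set ℤ := {v | |v| ≤ N ∧ v ∉ D}

/-- the trajectories of `x` and `y` meet inside `W` -/
def MtW (W : Set ℤ) (x y : ℤ) : Prop :=
  ∃ i j : ℕ, C^[i] x = C^[j] y ∧ (∀ a ≤ i, C^[a] x ∈ W) ∧ ∀ b ≤ j, C^[b] y ∈ W

section
variable {W : Set ℤ}

theorem MtW_symm {x y : ℤ} (h : MtW W x y) : MtW W y x := by
  obtain ⟨i, j, h1, h2, h3⟩ := h
  exact ⟨j, i, h1.symm, h3, h2⟩

theorem MtW_aux {x y z : ℤ} {i j k l : ℕ} (h1 : C^[i] x = C^[j] y) (h2 : ∀ a ≤ i, C^[a] x ∈ W)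
    (h5 : C^[k] y = C^[l] z) (h6 : ∀ a ≤ k, C^[a] y ∈ W)
    (h7 : ∀ b ≤ l, C^[b] z ∈ W) (hjk : j ≤ k) : MtW W x z := by
  obtain ⟨e, rfl⟩ := Nat.exists_eq_add_of_le hjk
  have key : ∀ m, C^[m + i] x = C^[m + j] y := by
    intro m
    rw [Function.iterate_add_apply, h1, ← Function.iterate_add_apply]
  refine ⟨e + i, l, ?_, fun a ha => ?_, h7⟩
  · rw [key, ← h5, add_comm]
  · rcases Nat.lt_or_ge i a with h | h
    · obtain ⟨m, rfl⟩ := Nat.exists_eq_add_of_lt h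
      rw [show i + m + 1 = (m + 1) + i by ring, key]
      exact h6 _ (by omega)
    · exact h2 a h

theorem MtW_trans {x y z : ℤ} (h : MtW W x y) (h' : MtW W y z) : MtW W x z := by
  obtain ⟨i, j, h1, h2, h3⟩ := h
  obtain ⟨k, l, h5, h6, h7⟩ := h'
  rcases le_total j k with hjk | hjk
  · exact MtW_aux h1 h2 h5 h6 h7 hjk
  · exact MtW_symm (MtW_aux h5.symm h7 h1.symm h3 h2 hjk)

theorem MtW_refl {x : ℤ} (h : x ∈ W) : MtW W x x :=
  ⟨0, 0, rfl, fun a ha => by rw [Nat.le_zero.1 ha]; exact h, fun a ha => by rw [Nat.le_zero.1 ha]; exact h⟩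

theorem MtW_left {x y : ℤ} (h : MtW W x y) : x ∈ W := by
  obtain ⟨i, j, _, h2, _⟩ := h
  exact h2 0 (Nat.zero_le _)

theorem MtW_right {x y : ℤ} (h : MtW W x y) : y ∈ W := MtW_left (MtW_symm h)

theorem eqvW_path {x : ℤ} : ∀ i : ℕ, (∀ a ≤ i, C^[a] x ∈ W) → Relation.EqvGen (EdgeW W) x (C^[i] x)
  | 0, _ => Relation.EqvGen.refl _
  | i + 1, h => by
    refine Relation.EqvGen.trans _ _ _ (eqvW_path i fun a ha => h a (by omega)) (Relation.EqvGen.rel _ _ ?_)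
    exact ⟨h i (by omega), h (i + 1) le_rfl, Function.iterate_succ_apply' _ _ _⟩

theorem eqv_of_MtW {x y : ℤ} (h : MtW W x y) : Relation.EqvGen (EdgeW W) x y := by
  obtain ⟨i, j, h1, h2, h3⟩ := h
  exact Relation.EqvGen.trans _ _ _ (eqvW_path i h2) (Relation.EqvGen.symm _ _ (h1 ▸ eqvW_path j h3))

theorem MtW_of_eqv {x y : ℤ} (h : Relation.EqvGen (EdgeW W) x y) : x = y ∨ MtW W x y := by
  induction h with
  | rel x y h =>
    right
    refine ⟨1, 0, by rw [Function.iterate_one]; exact h.2.2.symm, fun a ha => ?_, fun b hb => ?_⟩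
    · rcases Nat.le_one_iff_eq_zero_or_eq_one.1 ha with rfl | rfl
      · exact h.1
      · rw [Function.iterate_one, ← h.2.2]; exact h.2.1
    · rw [Nat.le_zero.1 hb]; exact h.2.1
  | refl x => exact Or.inl rfl
  | symm x y _ ih =>
    rcases ih with rfl | h
    · exact Or.inl rfl
    · exact Or.inr (MtW_symm h)
  | trans x y z _ _ ih1 ih2 =>
    rcases ih1 with rfl | h1
    · exact ih2
    · rcases ih2 with rfl | h2
      · exact Or.inr h1
      · exact Or.inr (MtW_trans h1 h2)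

theorem mem_CompW {x y : ℤ} : y ∈ CompW W x ↔ MtW W x y := by
  constructor
  · rintro ⟨h1, h2⟩
    rcases MtW_of_eqv h2 with rfl | h
    · exact MtW_refl h1
    · exact h
  · intro h
    exact ⟨MtW_right h, eqv_of_MtW h⟩

theorem CompW_eq {x y : ℤ} (h : y ∈ CompW W x) : CompW W y = CompW W x := by
  rw [mem_CompW] at h
  ext z
  rw [mem_CompW, mem_CompW]
  exact ⟨fun h2 => MtW_trans h h2, fun h2 => MtW_trans (MtW_symm h) h2⟩

theorem CompW_mono {W' : Set ℤ} (h : W ⊆ W') (x : ℤ) : CompW W x ⊆ CompW W' x := by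
  intro y hy
  rw [mem_CompW] at hy ⊢
  obtain ⟨i, j, h1, h2, h3⟩ := hy
  exact ⟨i, j, h1, fun a ha => h (h2 a ha), fun b hb => h (h3 b hb)⟩

end

theorem CompW_sub {N : ℕ} {D : Set ℤ} (x : ℤ) : CompW (V N D) x ⊆ Comp N x := by
  intro y hy
  rw [mem_CompW] at hy
  obtain ⟨i, j, h1, h2, h3⟩ := hy
  exact mem_Comp.2 ⟨i, j, h1, fun a ha => (h2 a ha).1, fun b hb => (h3 b hb).1⟩

theorem CompW_fin (N : ℕ) (D : Set ℤ) (x : ℤ) : (CompW (V N D) x).Finite := (Comp_fin N x).subset (CompW_sub x)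

theorem CompW_card (N : ℕ) (D : Set ℤ) (x : ℤ) : (CompW (V N D) x).ncard ≤ (Comp N x).ncard :=
  Set.ncard_le_ncard (CompW_sub x) (Comp_fin N x)

/-- the trajectory of `x` reaches `(-Y, Y)` through vertices that are left -/
def Al (N : ℕ) (D : Set ℤ) (Y : ℕ) (x : ℤ) : Prop := ∃ i : ℕ, |C^[i] x| < Y ∧ ∀ a < i, C^[a] x ∈ V N D

theorem C_big {r : ℤ} {Y : ℕ} (h : (Y : ℤ) ≤ |r|) (h2 : |C r| < Y) : |r| < 2 * Y := by
  rcases Int.emod_two_eq_zero_or_one r with hp | hp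
  · rw [C_even hp] at h2
    rw [abs_lt] at h2 ⊢
    omega
  · rw [C_odd (by omega)] at h2
    exfalso
    rw [abs_lt] at h2
    rcases abs_cases r with ⟨h3, h4⟩ | ⟨h3, h4⟩ <;> omega

theorem Al_root {N Y : ℕ} {D : Set ℤ} {x : ℤ} (hx : (Y : ℤ) ≤ |x|) (h : Al N D Y x) :
    ∃ r : ℤ, |r| < 2 * Y ∧ x ∈ CompW (V N D) r := by
  classical
  obtain ⟨i0, h1, h2⟩ := h
  have hex : ∃ i : ℕ, |C^[i] x| < Y := ⟨i0, h1⟩
  set i := Nat.find hex with hi
  have e1 : |C^[i] x| < Y := Nat.find_spec hex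
  have e2 : i ≤ i0 := Nat.find_le h1
  have e3 : i ≠ 0 := by
    intro h0
    rw [h0] at e1
    exact absurd e1 (not_lt.2 hx)
  obtain ⟨j, hj⟩ : ∃ j, i = j + 1 := ⟨i - 1, by omega⟩
  have e4 : (Y : ℤ) ≤ |C^[j] x| := not_lt.1 (Nat.find_min hex (by omega : j < i))
  rw [hj, Function.iterate_succ_apply'] at e1
  refine ⟨C^[j] x, C_big e4 e1, mem_CompW.2 ⟨0, j, rfl, fun a ha => ?_, fun b hb => h2 b (by omega)⟩⟩
  rw [Nat.le_zero.1 ha]
  exact h2 j (by omega)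

/-- the vertices in components with at least `t` elements -/
def Lg (N : ℕ) (D : Set ℤ) (t : ℝ) : Set ℤ := {x | |x| ≤ N ∧ t ≤ (CompW (V N D) x).ncard}

theorem Lg_fin (N : ℕ) (D : Set ℤ) (t : ℝ) : (Lg N D t).Finite := by
  apply (Set.finite_Icc (-(N : ℤ)) N).subset
  rintro y ⟨hy, _⟩
  rwa [abs_le] at hy

theorem fin_abs (P : ℤ → Prop) (N : ℕ) : {x : ℤ | |x| ≤ N ∧ P x}.Finite := by
  apply (Set.finite_Icc (-(N : ℤ)) N).subset
  rintro x ⟨hx, _⟩
  rwa [abs_le] at hx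

theorem abs_Icc {x : ℤ} {N : ℕ} : x ∈ Icc (-(N : ℤ)) N ↔ |x| ≤ N := by rw [mem_Icc, abs_le]

theorem card_abs (N : ℕ) : (Icc (-(N : ℤ)) N).card = 2 * N + 1 := by
  rw [Int.card_Icc]; omega

open scoped Classical in
/-- the vertices linked to small roots, and the large components -/
theorem roots {N Y : ℕ} (D : Set ℤ) {t : ℝ} (ht : 0 ≤ t) :
    (((Icc (-(N : ℤ)) N).filter (fun x => (Y : ℤ) ≤ |x| ∧ Al N D Y x)).card : ℝ) ≤ (Lg N D t).ncard + (4 * Y + 1) * t := by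
  have hsub : (Icc (-(N : ℤ)) N).filter (fun x => (Y : ℤ) ≤ |x| ∧ Al N D Y x) ⊆
      (Lg_fin N D t).toFinset ∪ ((Icc (-((2 * Y : ℕ) : ℤ)) ((2 * Y : ℕ) : ℤ)).filter
        (fun r => ((CompW (V N D) r).ncard : ℝ) < t)).biUnion (fun r => (CompW_fin N D r).toFinset) := by
    intro x hx
    rw [mem_filter, abs_Icc] at hx
    obtain ⟨hx1, hx2, hx3⟩ := hx
    rw [mem_union]
    by_cases hL : t ≤ (CompW (V N D) x).ncard
    · left
      rw [Set.Finite.mem_toFinset]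
      exact ⟨hx1, hL⟩
    · right
      obtain ⟨r, hr1, hr2⟩ := Al_root hx2 hx3
      rw [mem_biUnion]
      refine ⟨r, ?_, by rw [Set.Finite.mem_toFinset]; exact hr2⟩
      rw [mem_filter, abs_Icc]
      refine ⟨by push_cast; omega, ?_⟩
      rw [← CompW_eq hr2]
      exact not_le.1 hL
  have h1 := (card_le_card hsub).trans ((card_union_le _ _).trans (Nat.add_le_add_left card_biUnion_le _))
  have h2 : (((Icc (-(N : ℤ)) N).filter (fun x => (Y : ℤ) ≤ |x| ∧ Al N D Y x)).card : ℝ) ≤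
      ((Lg_fin N D t).toFinset.card : ℝ) + ∑ r ∈ (Icc (-((2 * Y : ℕ) : ℤ)) ((2 * Y : ℕ) : ℤ)).filter
        (fun r => ((CompW (V N D) r).ncard : ℝ) < t), ((CompW_fin N D r).toFinset.card : ℝ) := by
    exact_mod_cast h1
  have h3 : ∑ r ∈ (Icc (-((2 * Y : ℕ) : ℤ)) ((2 * Y : ℕ) : ℤ)).filter
        (fun r => ((CompW (V N D) r).ncard : ℝ) < t), ((CompW_fin N D r).toFinset.card : ℝ) ≤
      ∑ _r ∈ (Icc (-((2 * Y : ℕ) : ℤ)) ((2 * Y : ℕ) : ℤ)), t := by
    rw [sum_filter]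
    apply sum_le_sum
    intro r _
    split_ifs with h
    · rw [← Set.ncard_eq_toFinset_card _ (CompW_fin N D r)]
      exact h.le
    · exact ht
  rw [sum_const, card_abs, nsmul_eq_mul] at h3
  rw [← Set.ncard_eq_toFinset_card _ (Lg_fin N D t)] at h2
  have e : ((2 * (2 * Y) + 1 : ℕ) : ℝ) * t = (4 * Y + 1) * t := by push_cast; ring
  linarith

/-! ### deletion of the small vertices -/

theorem C_pm (x : ℤ) : Pool.Agent.Results.MP_d02c56_nt.PairsMeetLow.C x = C x := by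
  unfold Pool.Agent.Results.MP_d02c56_nt.PairsMeetLow.C C
  by_cases h : x % 2 = 0
  · rw [if_pos h, if_pos (Int.even_iff.2 h)]
  · rw [if_neg h, if_neg (fun h' => h (Int.even_iff.1 h'))]

theorem C_pm_iter (x : ℤ) (k : ℕ) : Pool.Agent.Results.MP_d02c56_nt.PairsMeetLow.C^[k] x = C^[k] x := by
  have : Pool.Agent.Results.MP_d02c56_nt.PairsMeetLow.C = C := funext C_pm
  rw [this]

/-- after the deletion of `[-M, M]` all components are small -/
theorem attack (B : ℕ) : ∃ K : ℝ, 0 < K ∧ ∀ M : ℕ, 2 ≤ M → ∀ (N : ℕ) (x : ℤ),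
    ((CompW (V N {v | |v| ≤ M}) x).ncard : ℝ) ≤ K * N / (Real.log M) ^ B := by
  obtain ⟨K0, HK⟩ := Pool.Agent.Results.MP_d02c56_nt.PairsMeetLow.result (2 * B)
  refine ⟨Real.sqrt (max K0 1), by positivity, fun M hM N x => ?_⟩
  have hMR : (2 : ℝ) ≤ M := by exact_mod_cast hM
  have hlog : 0 < Real.log M := Real.log_pos (by linarith)
  have h1 := HK M hMR N
  set S := CompW (V N {v | |v| ≤ M}) x with hS
  have hSf : S.Finite := CompW_fin N _ x
  have h2 : (S ×ˢ S).ncard ≤ {p : ℤ × ℤ | |p.1| ≤ N ∧ |p.2| ≤ N ∧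
      Pool.Agent.Results.MP_d02c56_nt.PairsMeetLow.MeetAbove M p.1 p.2}.ncard := by
    apply Set.ncard_le_ncard
    · rintro ⟨y, z⟩ ⟨hy, hz⟩
      simp only at hy hz
      have h3 : MtW (V N {v | |v| ≤ M}) y z := MtW_trans (MtW_symm (mem_CompW.1 hy)) (mem_CompW.1 hz)
      obtain ⟨i, j, e1, e2, e3⟩ := h3
      have cast : ∀ u : ℤ, u ∈ V N {v | |v| ≤ M} → (M : ℝ) ≤ |(u : ℝ)| := by
        rintro u ⟨_, hu⟩
        have hu' : (M : ℤ) < |u| := not_le.1 hu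
        have : ((M : ℤ) : ℝ) < ((|u| : ℤ) : ℝ) := by exact_mod_cast hu'
        rw [Int.cast_abs] at this
        push_cast at this
        exact this.le
      refine ⟨(e2 0 (Nat.zero_le _)).1, (e3 0 (Nat.zero_le _)).1, i, j, ?_, fun a ha => ?_, fun b hb => ?_⟩
      · rw [C_pm_iter, C_pm_iter]; exact e1
      · rw [C_pm_iter]; exact cast _ (e2 a ha)
      · rw [C_pm_iter]; exact cast _ (e3 b hb)
    · apply ((Set.finite_Icc (-(N : ℤ)) N).prod (Set.finite_Icc (-(N : ℤ)) N)).subset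
      rintro ⟨y, z⟩ ⟨hy, hz, _⟩
      rw [abs_le] at hy hz
      exact ⟨hy, hz⟩
  rw [Set.ncard_prod] at h2
  have h3 : ((S.ncard : ℝ)) ^ 2 ≤ max K0 1 * (N : ℝ) ^ 2 / Real.log M ^ (2 * B) := by
    have h4 : ((S.ncard * S.ncard : ℕ) : ℝ) ≤ K0 * (N : ℝ) ^ 2 / Real.log M ^ (2 * B) :=
      le_trans (by exact_mod_cast h2) h1
    rw [sq]
    push_cast at h4
    refine h4.trans ?_
    apply div_le_div_of_nonneg_right _ (by positivity)
    exact mul_le_mul_of_nonneg_right (le_max_left _ _) (by positivity)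
  have h5 : (Real.sqrt (max K0 1) * N / (Real.log M) ^ B) ^ 2 = max K0 1 * (N : ℝ) ^ 2 / Real.log M ^ (2 * B) := by
    rw [div_pow, mul_pow, Real.sq_sqrt (by positivity), ← pow_mul, mul_comm B 2]
  rw [← h5] at h3
  exact (sq_le_sq₀ (Nat.cast_nonneg _) (by positivity)).1 h3

end Pool.Agent.H623.RB
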