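import Mathlib

/-! Robustness, part D: random subsets of a finite set. -/

set_option autoImplicit false

namespace Pool.Agent.H623.RB

open Finset Filter Topology

section
variable {α : Type*} [DecidableEq α]

/-- the weight of a subset -/
noncomputable def wt (S : Finset α) (q : α → ℝ) (D : Finset α) : ℝ := (∏ v ∈ D, q v) * ∏ v ∈ S \ D, (1 - q v)

open scoped Classical in
/-- the probability of an event -/
noncomputable def Pr (S : Finset α) (q : α → ℝ) (E : Finset α → Prop) : ℝ := ∑ D ∈ S.powerset.filter E, wt S q D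

variable {S : Finset α} {q : α → ℝ}

theorem Pr_def (E : Finset α → Prop) [DecidablePred E] : Pr S q E = ∑ D ∈ S.powerset.filter E, wt S q D := by
  unfold Pr
  congr!

theorem wt_sum (S : Finset α) (q : α → ℝ) : ∑ D ∈ S.powerset, wt S q D = 1 := by
  have h := Finset.prod_add q (fun v => 1 - q v) S
  unfold wt
  rw [← h]
  apply prod_eq_one
  intro v _
  ring

theorem wt_nonneg (h0 : ∀ v, 0 ≤ q v) (h1 : ∀ v, q v ≤ 1) (D : Finset α) : 0 ≤ wt S q D :=
  mul_nonneg (prod_nonneg fun v _ => h0 v) (prod_nonneg fun v _ => by linarith [h1 v])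

theorem Pr_mono (h0 : ∀ v, 0 ≤ q v) (h1 : ∀ v, q v ≤ 1) {E E' : Finset α → Prop} (h : ∀ D, D ⊆ S → E D → E' D) :
    Pr S q E ≤ Pr S q E' := by
  classical
  unfold Pr
  apply sum_le_sum_of_subset_of_nonneg
  · intro D hD
    rw [mem_filter, mem_powerset] at hD ⊢
    exact ⟨hD.1, h D hD.1 hD.2⟩
  · intro D _ _
    exact wt_nonneg h0 h1 D

theorem Pr_nonneg (h0 : ∀ v, 0 ≤ q v) (h1 : ∀ v, q v ≤ 1) (E : Finset α → Prop) : 0 ≤ Pr S q E :=
  sum_nonneg fun _ _ => wt_nonneg h0 h1 _

theorem Pr_not (E : Finset α → Prop) : Pr S q (fun D => ¬ E D) = 1 - Pr S q E := by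
  classical
  have h := sum_filter_add_sum_filter_not S.powerset E (wt S q)
  rw [wt_sum] at h
  rw [Pr_def, Pr_def]
  linarith


/-- no element of `V` is in the random set -/
theorem Pr_avoid {V : Finset α} (hV : V ⊆ S) : Pr S q (fun D => Disjoint D V) = ∏ v ∈ V, (1 - q v) := by
  classical
  rw [Pr_def]
  have e : S.powerset.filter (fun D => Disjoint D V) = (S \ V).powerset := by
    ext D
    rw [mem_filter, mem_powerset, mem_powerset, subset_sdiff]
  rw [e]
  have h1 : ∀ D ∈ (S \ V).powerset, wt S q D = wt (S \ V) q D * ∏ v ∈ V, (1 - q v) := by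
    intro D hD
    rw [mem_powerset, subset_sdiff] at hD
    unfold wt
    have e2 : S \ D = ((S \ V) \ D) ∪ V := by
      ext v
      rw [mem_union, Finset.mem_sdiff, Finset.mem_sdiff, Finset.mem_sdiff]
      constructor
      · rintro ⟨h1, h2⟩
        by_cases h3 : v ∈ V
        · exact Or.inr h3
        · exact Or.inl ⟨⟨h1, h3⟩, h2⟩
      · rintro (⟨⟨h1, _⟩, h2⟩ | h)
        · exact ⟨h1, h2⟩
        · exact ⟨hV h, fun h2 => (disjoint_left.1 hD.2 h2) h⟩
    have e3 : Disjoint ((S \ V) \ D) V := by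
      rw [disjoint_left]
      intro v hv
      rw [Finset.mem_sdiff, Finset.mem_sdiff] at hv
      exact hv.1.2
    rw [e2, prod_union e3, mul_assoc]
  rw [sum_congr rfl h1, ← sum_mul, wt_sum, one_mul]

theorem one_sub_sum_le (h0 : ∀ v, 0 ≤ q v) (h1 : ∀ v, q v ≤ 1) (V : Finset α) : 1 - ∑ v ∈ V, q v ≤ ∏ v ∈ V, (1 - q v) := by
  induction V using Finset.induction_on with
  | empty => simp
  | insert a V ha ih =>
    rw [sum_insert ha, prod_insert ha]
    have h2 := h0 a
    have h3 := h1 a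
    have h4 : 0 ≤ ∑ v ∈ V, q v := sum_nonneg fun v _ => h0 v
    have h5 : ∏ v ∈ V, (1 - q v) ≤ 1 := prod_le_one (fun v _ => by linarith [h1 v]) (fun v _ => by linarith [h0 v])
    nlinarith

omit [DecidableEq α] in
theorem prod_le_exp (h1 : ∀ v, q v ≤ 1) (V : Finset α) : ∏ v ∈ V, (1 - q v) ≤ Real.exp (-∑ v ∈ V, q v) := by
  rw [← sum_neg_distrib, Real.exp_sum]
  apply prod_le_prod (fun v _ => by linarith [h1 v])
  intro v _
  have := Real.add_one_le_exp (-q v)
  linarith

/-- the probability to meet `V` is at most the sum over `V` -/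
theorem Pr_meet (h0 : ∀ v, 0 ≤ q v) (h1 : ∀ v, q v ≤ 1) (V : Finset α) :
    Pr S q (fun D => ¬ Disjoint D V) ≤ ∑ v ∈ V, q v := by
  classical
  have e : Pr S q (fun D => ¬ Disjoint D V) ≤ Pr S q (fun D => ¬ Disjoint D (V ∩ S)) := by
    apply Pr_mono h0 h1
    intro D hD h h2
    apply h
    rw [disjoint_left] at h2 ⊢
    intro v hv hv2
    exact h2 hv (mem_inter.2 ⟨hv2, hD hv⟩)
  refine e.trans ?_
  rw [Pr_not, Pr_avoid inter_subset_right]
  have h2 := one_sub_sum_le h0 h1 (V ∩ S)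
  have h3 : ∑ v ∈ V ∩ S, q v ≤ ∑ v ∈ V, q v :=
    sum_le_sum_of_subset_of_nonneg inter_subset_left fun v _ _ => h0 v
  linarith

/-- the probability to avoid `V` -/
theorem Pr_avoid_le (h1 : ∀ v, q v ≤ 1) {V : Finset α} (hV : V ⊆ S) :
    Pr S q (fun D => Disjoint D V) ≤ Real.exp (-∑ v ∈ V, q v) := by
  rw [Pr_avoid hV]
  exact prod_le_exp h1 V

/-- Markov -/
theorem markov {β : Type*} (h0 : ∀ v, 0 ≤ q v) (h1 : ∀ v, q v ≤ 1) (X : Finset β) (E : β → Finset α → Prop)
    [∀ D, DecidablePred fun x => E x D] {t : ℝ} (ht : 0 < t) :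
    Pr S q (fun D => t ≤ ((X.filter (fun x => E x D)).card : ℝ)) ≤ (∑ x ∈ X, Pr S q (E x)) / t := by
  classical
  rw [le_div_iff₀ ht]
  simp only [Pr_def]
  calc (∑ D ∈ S.powerset.filter (fun D => t ≤ ((X.filter (fun x => E x D)).card : ℝ)), wt S q D) * t
      = ∑ D ∈ S.powerset.filter (fun D => t ≤ ((X.filter (fun x => E x D)).card : ℝ)), wt S q D * t := by rw [sum_mul]
    _ ≤ ∑ D ∈ S.powerset.filter (fun D => t ≤ ((X.filter (fun x => E x D)).card : ℝ)), wt S q D * (X.filter (fun x => E x D)).card := by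
        apply sum_le_sum
        intro D hD
        rw [mem_filter] at hD
        exact mul_le_mul_of_nonneg_left hD.2 (wt_nonneg h0 h1 D)
    _ ≤ ∑ D ∈ S.powerset, wt S q D * (X.filter (fun x => E x D)).card := by
        apply sum_le_sum_of_subset_of_nonneg (filter_subset _ _)
        intro D _ _
        exact mul_nonneg (wt_nonneg h0 h1 D) (Nat.cast_nonneg _)
    _ = ∑ D ∈ S.powerset, ∑ x ∈ X, if E x D then wt S q D else 0 := by
        apply sum_congr rfl
        intro D _
        rw [← sum_filter, sum_const, nsmul_eq_mul, mul_comm]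
    _ = ∑ x ∈ X, ∑ D ∈ S.powerset, if E x D then wt S q D else 0 := sum_comm
    _ = ∑ x ∈ X, ∑ D ∈ S.powerset.filter (E x), wt S q D := by
        apply sum_congr rfl
        intro x _
        rw [sum_filter]

theorem Pr_or (h0 : ∀ v, 0 ≤ q v) (h1 : ∀ v, q v ≤ 1) (E E' : Finset α → Prop) :
    Pr S q (fun D => E D ∨ E' D) ≤ Pr S q E + Pr S q E' := by
  classical
  simp only [Pr_def]
  rw [filter_or]
  have := sum_union_inter (s₁ := S.powerset.filter E) (s₂ := S.powerset.filter E') (f := wt S q)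
  have h2 : 0 ≤ ∑ D ∈ S.powerset.filter E ∩ S.powerset.filter E', wt S q D := sum_nonneg fun _ _ => wt_nonneg h0 h1 _
  linarith

theorem Pr_exists {E : Finset α → Prop} (h : 0 < Pr S q E) : ∃ D, D ⊆ S ∧ E D := by
  classical
  by_contra hcon
  push Not at hcon
  have : Pr S q E = 0 := by
    unfold Pr
    apply sum_eq_zero
    intro D hD
    rw [mem_filter, mem_powerset] at hD
    exact absurd hD.2 (hcon D hD.1)
  linarith

end

end Pool.Agent.H623.RB
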