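import Pool.Agent.H623.RB.Cc
import Pool.Agent.H623.RB.D

/-! Robustness, part E: the vertices whose trajectory survives. -/

set_option autoImplicit false

namespace Pool.Agent.H623.RB

open Finset Filter Topology
open Pool.Agent.H623.TG
open Pool.Agent.H499R2.CO (Tz)
open Pool.Agent.R344.TH (HY Cz)
open Pool.Agent.W41
open Pool.Agent.H499R2.ND (HD)

open scoped Classical in
theorem split_le (P : ℤ → Prop) (N : ℕ) :
    ((Icc (-(N : ℤ)) N).filter P).card ≤ cF 1 {x | P x} N + cF (-1) {x | P x} N + 1 := by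
  have hsub : (Icc (-(N : ℤ)) N).filter P ⊆
      (((Icc 1 N).filter (fun m : ℕ => (1 : ℤ) * (m : ℤ) ∈ {x | P x})).image (fun m : ℕ => (m : ℤ)) ∪
      ((Icc 1 N).filter (fun m : ℕ => (-1 : ℤ) * (m : ℤ) ∈ {x | P x})).image (fun m : ℕ => -(m : ℤ))) ∪ {0} := by
    intro x hx
    rw [mem_filter, mem_Icc] at hx
    obtain ⟨⟨h1, h2⟩, h3⟩ := hx
    rcases lt_trichotomy x 0 with h | h | h
    · rw [mem_union, mem_union]
      left; right
      rw [mem_image]
      refine ⟨(-x).toNat, ?_, by omega⟩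
      rw [mem_filter, mem_Icc]
      refine ⟨by omega, ?_⟩
      have : (-1 : ℤ) * ((-x).toNat : ℤ) = x := by omega
      rw [this]; exact h3
    · rw [mem_union]; right; rw [mem_singleton]; exact h
    · rw [mem_union, mem_union]
      left; left
      rw [mem_image]
      refine ⟨x.toNat, ?_, by omega⟩
      rw [mem_filter, mem_Icc]
      refine ⟨by omega, ?_⟩
      have : (1 : ℤ) * (x.toNat : ℤ) = x := by omega
      rw [this]; exact h3
  refine (card_le_card hsub).trans ((card_union_le _ _).trans ?_)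
  rw [card_singleton]
  refine Nat.add_le_add_right ((card_union_le _ _).trans ?_) 1
  exact Nat.add_le_add card_image_le card_image_le

open scoped Classical in
theorem split_ge (P : ℤ → Prop) (N : ℕ) :
    cF 1 {x | P x} N + cF (-1) {x | P x} N ≤ ((Icc (-(N : ℤ)) N).filter P).card := by
  have h1 : cF 1 {x | P x} N = (((Icc 1 N).filter (fun m : ℕ => (1 : ℤ) * (m : ℤ) ∈ {x | P x})).image (fun m : ℕ => (m : ℤ))).card := by
    rw [card_image_of_injective _ (fun a b h => by simpa using h)]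
    unfold cF
    congr!
  have h2 : cF (-1) {x | P x} N = (((Icc 1 N).filter (fun m : ℕ => (-1 : ℤ) * (m : ℤ) ∈ {x | P x})).image (fun m : ℕ => -(m : ℤ))).card := by
    rw [card_image_of_injective _ (fun a b h => by simpa using h)]
    unfold cF
    congr!
  rw [h1, h2, ← card_union_of_disjoint]
  · apply card_le_card
    intro x hx
    rw [mem_union, mem_image, mem_image] at hx
    rw [mem_filter, mem_Icc]
    rcases hx with ⟨m, hm, rfl⟩ | ⟨m, hm, rfl⟩
    · rw [mem_filter, mem_Icc] at hm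
      refine ⟨by omega, ?_⟩
      have := hm.2
      rw [one_mul] at this
      exact this
    · rw [mem_filter, mem_Icc] at hm
      refine ⟨by omega, ?_⟩
      have := hm.2
      rw [neg_one_mul] at this
      exact this
  · rw [disjoint_left]
    intro x hx hy
    rw [mem_image] at hx hy
    obtain ⟨a, ha, rfl⟩ := hx
    obtain ⟨b, hb, h⟩ := hy
    rw [mem_filter, mem_Icc] at ha hb
    omega

/-- regular integers -/
def Reg (Y : ℕ) (x : ℤ) : Prop :=
  x ≠ 0 ∧ x.sign * x ∉ HY x.sign (Irr x.sign) Y ∧ (Y : ℤ) ≤ |x|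

theorem sign_mul_abs (x : ℤ) : x.sign * x = |x| := by
  rcases lt_trichotomy x 0 with h | h | h
  · rw [Int.sign_eq_neg_one_of_neg h, abs_of_neg h]; ring
  · subst h; simp
  · rw [Int.sign_eq_one_of_pos h, abs_of_pos h]; ring

open scoped Classical in
theorem few_irr {ε : ℝ} (hε : 0 < ε) : ∃ Y0 : ℕ, ∀ Y : ℕ, Y0 ≤ Y → ∃ N0 : ℕ, ∀ N : ℕ, N0 ≤ N →
    (((Icc (-(N : ℤ)) N).filter (fun x => ¬ Reg Y x)).card : ℝ) ≤ ε * N := by
  obtain ⟨Y1, _, H1⟩ := irr_avoid (s := 1) (Or.inl rfl) (show 0 < ε / 4 by positivity)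
  obtain ⟨Y2, _, H2⟩ := irr_avoid (s := -1) (Or.inr rfl) (show 0 < ε / 4 by positivity)
  obtain ⟨Y0, hY0⟩ := exists_nat_ge (max Y1 Y2)
  refine ⟨Y0, fun Y hY => ?_⟩
  have hYR : max Y1 Y2 ≤ (Y : ℝ) := hY0.trans (by exact_mod_cast hY)
  obtain ⟨N0, hN0⟩ := exists_nat_ge ((2 * Y + 1) * 2 / ε)
  refine ⟨N0, fun N hN => ?_⟩
  have h1 := H1 Y ((le_max_left _ _).trans hYR) N
  have h2 := H2 Y ((le_max_right _ _).trans hYR) N
  have hsub : (Icc (-(N : ℤ)) N).filter (fun x => ¬ Reg Y x) ⊆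
      ((Icc (1 : ℤ) N).filter (fun n => n ∈ HY 1 (Irr 1) Y) ∪
      ((Icc (1 : ℤ) N).filter (fun n => n ∈ HY (-1) (Irr (-1)) Y)).image (fun n => -n)) ∪ Icc (-(Y : ℤ)) Y := by
    intro x hx
    rw [mem_filter, mem_Icc] at hx
    obtain ⟨⟨ha, hb⟩, hc⟩ := hx
    rw [mem_union]
    by_cases h : x ∈ Icc (-(Y : ℤ)) Y
    · exact Or.inr h
    · left
      rw [abs_Icc, not_le] at h
      have hx0 : x ≠ 0 := by rintro rfl; simp at h; omega
      have h3 : x.sign * x ∈ HY x.sign (Irr x.sign) Y := by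
        by_contra hcon
        exact hc ⟨hx0, hcon, h.le⟩
      rw [mem_union]
      rcases lt_or_gt_of_ne hx0 with hlt | hgt
      · right
        rw [mem_image]
        refine ⟨-x, ?_, by ring⟩
        rw [Int.sign_eq_neg_one_of_neg hlt, neg_one_mul] at h3
        rw [mem_filter, mem_Icc]
        exact ⟨by omega, h3⟩
      · left
        rw [Int.sign_eq_one_of_pos hgt, one_mul] at h3
        rw [mem_filter, mem_Icc]
        exact ⟨by omega, h3⟩
  have h3 := (card_le_card hsub).trans ((card_union_le _ _).trans (Nat.add_le_add_right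
    ((card_union_le _ _).trans (Nat.add_le_add_left card_image_le _)) _))
  have h4 : (((Icc (-(N : ℤ)) N).filter (fun x => ¬ Reg Y x)).card : ℝ) ≤
      ((Icc (1 : ℤ) N).filter (fun n => n ∈ HY 1 (Irr 1) Y)).card +
      ((Icc (1 : ℤ) N).filter (fun n => n ∈ HY (-1) (Irr (-1)) Y)).card + ((Icc (-(Y : ℤ)) Y).card : ℝ) := by
    exact_mod_cast h3
  rw [card_abs] at h4
  push_cast at h4
  have h5 : (2 * Y + 1 : ℝ) ≤ ε / 2 * N := by
    have h6 : (N0 : ℝ) ≤ N := by exact_mod_cast hN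
    have h7 := hN0.trans h6
    rw [div_le_iff₀ hε] at h7
    linarith
  linarith

/-- the path of a regular integer -/
theorem reg_path {p : ℕ → ℝ} (hp : Antitone p) (hp0 : ∀ n, 0 ≤ p n) {Y l : ℕ} (hl : 120 ≤ l) (hY1 : 2 ^ l ≤ Y)
    (hY2 : Y < 2 ^ (l + 1)) {x : ℤ} (hx : Reg Y x) {k : ℕ} (hk1 : (2 : ℝ) ^ k ≤ |(x : ℝ)|) (hk2 : |(x : ℝ)| < 2 ^ (k + 1)) :
    ∃ i : ℕ, |C^[i] x| < Y ∧ (∀ a < i, (Y : ℤ) ≤ |C^[a] x|) ∧
      ∑ a ∈ range i, p (C^[a] x).natAbs ≤ 100 * (Ps p (7 * k / 10) - Ps p (l / 2)) ∧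
      1 / 2 * (Ps p (2 * k) - Ps p (3 * l + 3)) ≤ ∑ a ∈ range i, p (C^[a] x).natAbs := by
  obtain ⟨hx0, hxH, hxY⟩ := hx
  obtain ⟨hs, hpos⟩ := sign_side hx0
  set s := x.sign with hsdef
  set n := s * x with hn
  have hxn : x = s * n := by rw [hn, s_mul hs]
  have hnabs : n = |x| := by rw [hn, hsdef, sign_mul_abs]
  have hY1R : (2 : ℝ) ^ l ≤ (Y : ℝ) := by exact_mod_cast hY1
  have hY2R : (Y : ℝ) < 2 ^ (l + 1) := by exact_mod_cast hY2
  have e1 : (n : ℝ) = |(x : ℝ)| := by rw [hnabs, Int.cast_abs]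
  obtain ⟨i, h1, h2, h3, h4⟩ := desc hp hp0 hs hl hY1R hY2R n.toNat n le_rfl hpos hxH
    (by rw [e1]; have : ((Y : ℤ) : ℝ) ≤ ((|x| : ℤ) : ℝ) := by exact_mod_cast hxY
        rw [Int.cast_abs] at this; exact_mod_cast this) k (by rw [e1]; exact hk1) (by rw [e1]; exact hk2)
  have habs : ∀ a : ℕ, |C^[a] x| = (Cz s)^[a] n := by
    intro a
    rw [hxn, abs_side hs hpos]
  have hsum : ∑ a ∈ range i, p (C^[a] x).natAbs = SC p s n i := by
    unfold SC
    apply sum_congr rfl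
    intro a _
    congr 1
    rw [← habs a, Int.natAbs_abs]
  refine ⟨i, ?_, fun a ha => ?_, by rw [hsum]; exact h3, by rw [hsum]; exact h4⟩
  · rw [habs]
    have : (((Cz s)^[i] n : ℤ) : ℝ) < ((Y : ℤ) : ℝ) := by push_cast; exact h1
    exact_mod_cast this
  · rw [habs]
    have : ((Y : ℤ) : ℝ) ≤ (((Cz s)^[a] n : ℤ) : ℝ) := by push_cast; exact h2 a ha
    exact_mod_cast this

/-- the vertices before the first passage are different -/
theorem path_inj {x : ℤ} {Y : ℕ} {i : ℕ} (h1 : |C^[i] x| < Y) (h2 : ∀ a < i, (Y : ℤ) ≤ |C^[a] x|) :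
    Set.InjOn (fun a => C^[a] x) (range i : Set ℕ) := by
  have key : ∀ a b : ℕ, a < b → b < i → C^[a] x = C^[b] x → False := by
    intro a b hab hb h
    obtain ⟨e, he⟩ : ∃ e, i = e + b := ⟨i - b, by omega⟩
    have h3 : C^[i] x = C^[e + a] x := by
      rw [he, Function.iterate_add_apply, Function.iterate_add_apply, h]
    have h4 := h2 (e + a) (by omega)
    rw [← h3] at h4
    omega
  intro a ha b hb h
  rw [mem_coe, mem_range] at ha hb
  rcases lt_trichotomy a b with hab | hab | hab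
  · exact (key a b hab hb h).elim
  · exact hab
  · exact (key b a hab ha h.symm).elim

theorem path_sum {p : ℕ → ℝ} {x : ℤ} {Y : ℕ} {i : ℕ} (h1 : |C^[i] x| < Y) (h2 : ∀ a < i, (Y : ℤ) ≤ |C^[a] x|) :
    ∑ v ∈ (range i).image (fun a => C^[a] x), p v.natAbs = ∑ a ∈ range i, p (C^[a] x).natAbs := by
  rw [sum_image]
  intro a ha b hb h
  exact path_inj h1 h2 ha hb h

theorem pow_near {x : ℤ} (hx : x ≠ 0) : ∃ k : ℕ, (2 : ℝ) ^ k ≤ |(x : ℝ)| ∧ |(x : ℝ)| < 2 ^ (k + 1) := by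
  apply exists_nat_pow_near _ (by norm_num)
  have : 1 ≤ |x| := Int.one_le_abs hx
  have h : ((1 : ℤ) : ℝ) ≤ ((|x| : ℤ) : ℝ) := by exact_mod_cast this
  rw [Int.cast_abs] at h
  exact_mod_cast h

theorem univ_HD {s : ℤ} (hs : s = 1 ∨ s = -1) : HD s (Set.univ : Set ℤ) 1 := by
  apply HasD_HD hs (fun x => by simp)
  unfold HasD
  have h : ∀ᶠ N : ℕ in atTop, (1 : ℝ) = ({n : ℤ | 0 < s * n ∧ s * n ≤ N ∧ n ∈ (Set.univ : Set ℤ)}.ncard : ℝ) / N := by
    filter_upwards [eventually_ge_atTop 1] with N hN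
    have hNR : (0 : ℝ) < N := by exact_mod_cast hN
    rw [cF_ncard hs, eq_div_iff hNR.ne', one_mul]
    have h1 : cF s (Set.univ : Set ℤ) N = N := by
      unfold cF
      simp
    rw [h1]
  exact tendsto_const_nhds.congr' h

open scoped Classical in
/-- the number of the vertices whose trajectory reaches `(-Y, Y)` inside `[-N, N]` -/
theorem rch_count {κ : ℝ} (hκ : Tendsto kap atTop (𝓝 κ)) {ε : ℝ} (hε : 0 < ε) : ∃ Y0 : ℕ, ∀ Y : ℕ, Y0 ≤ Y → ∃ N0 : ℕ,
    ∀ N : ℕ, N0 ≤ N → (2 * κ - ε) * N ≤ ((Icc (-(N : ℤ)) N).filter (fun x => Rch N Y x)).card := by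
  obtain ⟨Y1, _, H1⟩ := main_count (s := 1) (Or.inl rfl) hκ (show 0 < ε / 2 by positivity)
  obtain ⟨Y2, _, H2⟩ := main_count (s := -1) (Or.inr rfl) hκ (show 0 < ε / 2 by positivity)
  obtain ⟨Y0, hY0⟩ := exists_nat_ge (max Y1 Y2)
  refine ⟨Y0, fun Y hY => ?_⟩
  have hYR : max Y1 Y2 ≤ (Y : ℝ) := hY0.trans (by exact_mod_cast hY)
  obtain ⟨N1, h1⟩ := H1 Y ((le_max_left _ _).trans hYR)
  obtain ⟨N2, h2⟩ := H2 Y ((le_max_right _ _).trans hYR)
  refine ⟨max N1 N2, fun N hN => ?_⟩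
  have a1 := h1 N ((le_max_left _ _).trans hN) Set.univ (inv_Td fun x => by simp) 1 (univ_HD (Or.inl rfl))
  have a2 := h2 N ((le_max_right _ _).trans hN) Set.univ (inv_Td fun x => by simp) 1 (univ_HD (Or.inr rfl))
  rw [cL_eq (Or.inl rfl), Set.univ_inter] at a1
  rw [cL_eq (Or.inr rfl), Set.univ_inter] at a2
  have h3 := split_ge (fun x => Rch N Y x) N
  have h4 : (cF 1 {x | Rch N Y x} N : ℝ) + cF (-1) {x | Rch N Y x} N ≤
      ((Icc (-(N : ℤ)) N).filter (fun x => Rch N Y x)).card := by exact_mod_cast h3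
  rw [abs_le] at a1 a2
  linarith [a1.1, a2.1]

end Pool.Agent.H623.RB
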