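import Pool.Agent.H623.RB.E

/-! Robustness, part F: survival and extinction. -/

set_option autoImplicit false

namespace Pool.Agent.H623.RB

open Finset Filter Topology
open Pool.Agent.H623.TG

/-- the vertices of the graph -/
noncomputable def Sv (N : ℕ) : Finset ℤ := Icc (-(N : ℤ)) N

/-- the deleted vertices of absolute value at least `M` -/
def Del (M : ℕ) (D : Finset ℤ) : Set ℤ := {v | v ∈ D ∧ (M : ℤ) ≤ |v|}

theorem Del_zero (D : Finset ℤ) : Del 0 D = (D : Set ℤ) := by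
  ext v
  unfold Del
  simp

theorem Sv_card (N : ℕ) : (Sv N).card = 2 * N + 1 := card_abs N

section
variable {p p' : ℕ → ℝ} (h0 : ∀ n, 0 ≤ p n) (h1 : ∀ n, p n ≤ 1) (hp' : Antitone p') (h0' : ∀ n, 0 ≤ p' n)

include h0 h1 hp' h0' in
open scoped Classical in
/-- SURVIVAL of the regular trajectories -/
theorem surv {Y l M : ℕ} (hpp : ∀ n, M ≤ n → p n ≤ p' n) (hl : 120 ≤ l) (hY1 : 2 ^ l ≤ Y)
    (hY2 : Y < 2 ^ (l + 1)) {η : ℝ} (hη : ∀ m, Ps p' m - Ps p' (l / 2) ≤ η) (N : ℕ) {t : ℝ} (ht : 0 < t) :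
    Pr (Sv N) (fun v => p v.natAbs) (fun D => t ≤ (((Sv N).filter (fun x => (Rch N Y x ∧ Reg Y x) ∧
      ¬ Al N (Del M D) Y x)).card : ℝ)) ≤ (2 * N + 1) * (100 * η) / t := by
  have hη0 : 0 ≤ η := by
    have := hη (l / 2)
    linarith
  have hq0 : ∀ v : ℤ, 0 ≤ p v.natAbs := fun v => h0 _
  have hq1 : ∀ v : ℤ, p v.natAbs ≤ 1 := fun v => h1 _
  have hM := markov (S := Sv N) (q := fun v => p v.natAbs) hq0 hq1 (Sv N)
    (fun x D => (Rch N Y x ∧ Reg Y x) ∧ ¬ Al N (Del M D) Y x) ht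
  refine hM.trans ?_
  apply div_le_div_of_nonneg_right _ ht.le
  have hx : ∀ x ∈ Sv N, Pr (Sv N) (fun v => p v.natAbs) (fun D => (Rch N Y x ∧ Reg Y x) ∧ ¬ Al N (Del M D) Y x) ≤ 100 * η := by
    intro x _
    by_cases hx : Rch N Y x ∧ Reg Y x
    · obtain ⟨k, hk1, hk2⟩ := pow_near hx.2.1
      obtain ⟨i, c1, c2, c3, _⟩ := reg_path hp' h0' hl hY1 hY2 hx.2 hk1 hk2
      set Pa := ((range i).image (fun a => C^[a] x)).filter (fun v => (M : ℤ) ≤ |v|) with hPa
      have e1 : Pr (Sv N) (fun v => p v.natAbs) (fun D => (Rch N Y x ∧ Reg Y x) ∧ ¬ Al N (Del M D) Y x) ≤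
          Pr (Sv N) (fun v => p v.natAbs) (fun D => ¬ Disjoint D Pa) := by
        apply Pr_mono hq0 hq1
        rintro D _ ⟨_, hn⟩ hdis
        apply hn
        refine ⟨i, c1, fun a ha => ⟨?_, ?_⟩⟩
        · obtain ⟨i', f1, f2⟩ := hx.1
          apply f2 a
          by_contra hcon
          have h3 := c2 i' (by omega)
          have h4 : ((Y : ℤ) : ℝ) ≤ ((|C^[i'] x| : ℤ) : ℝ) := by exact_mod_cast h3
          push_cast at h4 f1
          linarith
        · rintro ⟨hD, hMv⟩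
          rw [disjoint_left] at hdis
          apply hdis hD
          rw [hPa, mem_filter, mem_image]
          exact ⟨⟨a, mem_range.2 ha, rfl⟩, hMv⟩
      refine e1.trans ((Pr_meet hq0 hq1 Pa).trans ?_)
      have e2 : ∑ v ∈ Pa, p v.natAbs ≤ ∑ v ∈ (range i).image (fun a => C^[a] x), p' v.natAbs := by
        calc ∑ v ∈ Pa, p v.natAbs ≤ ∑ v ∈ Pa, p' v.natAbs := by
              apply sum_le_sum
              intro v hv
              rw [hPa, mem_filter] at hv
              apply hpp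
              have h3 := hv.2
              rw [Int.abs_eq_natAbs] at h3
              exact_mod_cast h3
          _ ≤ _ := sum_le_sum_of_subset_of_nonneg (filter_subset _ _) fun v _ _ => h0' _
      rw [path_sum c1 c2] at e2
      have e3 := hη (7 * k / 10)
      linarith
    · have e1 : Pr (Sv N) (fun v => p v.natAbs) (fun D => (Rch N Y x ∧ Reg Y x) ∧ ¬ Al N (Del M D) Y x) ≤
          Pr (Sv N) (fun v => p v.natAbs) (fun D => ¬ Disjoint D ∅) := by
        apply Pr_mono hq0 hq1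
        rintro D _ ⟨hn, _⟩
        exact absurd hn hx
      refine e1.trans ((Pr_meet hq0 hq1 ∅).trans ?_)
      rw [sum_empty]
      positivity
  refine (sum_le_sum hx).trans (le_of_eq ?_)
  rw [sum_const, Sv_card, nsmul_eq_mul]
  push_cast
  ring

include h0 h1 in
open scoped Classical in
/-- EXTINCTION: the trajectories are cut -/
theorem cutoff (hp : Antitone p) {Y l : ℕ} (hl : 120 ≤ l) (hY1 : 2 ^ l ≤ Y)
    (hY2 : Y < 2 ^ (l + 1)) {R : ℝ} {k0 : ℕ} (hR : ∀ k, k0 ≤ k → R ≤ 1 / 2 * (Ps p (2 * k) - Ps p (3 * l + 3))) (N : ℕ)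
    {t : ℝ} (ht : 0 < t) :
    Pr (Sv N) (fun v => p v.natAbs) (fun D => t ≤ (((Sv N).filter (fun x => (Reg Y x ∧ (2 : ℝ) ^ k0 ≤ |(x : ℝ)|) ∧
      Al N D Y x)).card : ℝ)) ≤ (2 * N + 1) * Real.exp (-R) / t := by
  have hq0 : ∀ v : ℤ, 0 ≤ p v.natAbs := fun v => h0 _
  have hq1 : ∀ v : ℤ, p v.natAbs ≤ 1 := fun v => h1 _
  have hM := markov (S := Sv N) (q := fun v => p v.natAbs) hq0 hq1 (Sv N)
    (fun x D => (Reg Y x ∧ (2 : ℝ) ^ k0 ≤ |(x : ℝ)|) ∧ Al N D Y x) ht
  refine hM.trans ?_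
  apply div_le_div_of_nonneg_right _ ht.le
  have hzero : ∀ E : Finset ℤ → Prop, (∀ D, ¬ E D) → Pr (Sv N) (fun v => p v.natAbs) E ≤ Real.exp (-R) := by
    intro E hE
    have e1 : Pr (Sv N) (fun v => p v.natAbs) E ≤ Pr (Sv N) (fun v => p v.natAbs) (fun D => ¬ Disjoint D ∅) := by
      apply Pr_mono hq0 hq1
      intro D _ h
      exact absurd h (hE D)
    refine e1.trans ((Pr_meet hq0 hq1 ∅).trans ?_)
    rw [sum_empty]
    positivity
  have hx : ∀ x ∈ Sv N, Pr (Sv N) (fun v => p v.natAbs) (fun D => (Reg Y x ∧ (2 : ℝ) ^ k0 ≤ |(x : ℝ)|) ∧ Al N D Y x)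
      ≤ Real.exp (-R) := by
    intro x _
    by_cases hx : Reg Y x ∧ (2 : ℝ) ^ k0 ≤ |(x : ℝ)|
    · obtain ⟨k, hk1, hk2⟩ := pow_near hx.1.1
      obtain ⟨i, c1, c2, _, c4⟩ := reg_path hp h0 hl hY1 hY2 hx.1 hk1 hk2
      have hkk : k0 ≤ k := by
        have h3 : (2 : ℝ) ^ k0 < 2 ^ (k + 1) := lt_of_le_of_lt hx.2 hk2
        rw [pow_lt_pow_iff_right₀ (by norm_num)] at h3
        omega
      set Pa := (range i).image (fun a => C^[a] x) with hPa
      have hal : ∀ D : Finset ℤ, Al N D Y x → ∀ a < i, C^[a] x ∈ V N D := by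
        rintro D ⟨i', f1, f2⟩ a ha
        apply f2 a
        by_contra hcon
        have h3 := c2 i' (by omega)
        omega
      by_cases hsub : Pa ⊆ Sv N
      · have e1 : Pr (Sv N) (fun v => p v.natAbs) (fun D => (Reg Y x ∧ (2 : ℝ) ^ k0 ≤ |(x : ℝ)|) ∧ Al N D Y x) ≤
            Pr (Sv N) (fun v => p v.natAbs) (fun D => Disjoint D Pa) := by
          apply Pr_mono hq0 hq1
          rintro D _ ⟨_, hD⟩
          rw [disjoint_left]
          intro v hv hv2
          rw [hPa, mem_image] at hv2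
          obtain ⟨a, ha, rfl⟩ := hv2
          exact (hal D hD a (mem_range.1 ha)).2 hv
        refine e1.trans ((Pr_avoid_le hq1 hsub).trans ?_)
        apply Real.exp_le_exp.2
        apply neg_le_neg
        rw [hPa, path_sum c1 c2]
        exact (hR k hkk).trans c4
      · apply hzero
        rintro D ⟨_, hD⟩
        apply hsub
        intro v hv
        rw [hPa, mem_image] at hv
        obtain ⟨a, ha, rfl⟩ := hv
        exact abs_Icc.2 (hal D hD a (mem_range.1 ha)).1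
    · apply hzero
      rintro D ⟨h, _⟩
      exact hx h
  refine (sum_le_sum hx).trans (le_of_eq ?_)
  rw [sum_const, Sv_card, nsmul_eq_mul]
  push_cast
  ring

end

end Pool.Agent.H623.RB
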