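import Pool.Agent.H623.RB.F

/-! Robustness, part G: the threshold. -/

set_option autoImplicit false

namespace Pool.Agent.H623.RB

open Finset Filter Topology
open Pool.Agent.H623.TG
open Pool.Agent.Results.MP_d02c56_nt.PairsMeetLow (MeetAbove)

theorem summable_pow {p : ℕ → ℝ} (hp : Antitone p) (h0 : ∀ n, 0 ≤ p n) :
    Summable (fun k : ℕ => p (2 ^ k)) ↔ Summable (fun n : ℕ => p n / n) := by
  have h := summable_condensed_iff_of_nonneg (f := fun n : ℕ => p n / n) (fun n => div_nonneg (h0 n) (Nat.cast_nonneg n))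
    (fun m n hm hmn => by
      have hmR : (0 : ℝ) < m := by exact_mod_cast hm
      have hmnR : (m : ℝ) ≤ n := by exact_mod_cast hmn
      exact div_le_div₀ (h0 m) (hp hmn) hmR hmnR)
  rw [← h]
  have e : (fun k : ℕ => p (2 ^ k)) = fun k : ℕ => (2 : ℝ) ^ k * (p (2 ^ k) / ((2 ^ k : ℕ) : ℝ)) := by
    funext k
    push_cast
    field_simp
  rw [e]

theorem tail_small {g : ℕ → ℝ} (hg : Summable fun k : ℕ => g (2 ^ k)) (h0 : ∀ n, 0 ≤ g n) {η : ℝ} (hη : 0 < η) :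
    ∃ l0 : ℕ, ∀ l, l0 ≤ l → ∀ m, Ps g m - Ps g (l / 2) ≤ η := by
  have h1 : Tendsto (fun m : ℕ => Ps g m) atTop (𝓝 (∑' k : ℕ, g (2 ^ k))) := hg.hasSum.tendsto_sum_nat
  obtain ⟨m0, hm0⟩ := Metric.tendsto_atTop.1 h1 η hη
  refine ⟨2 * m0, fun l hl m => ?_⟩
  have h2 := hm0 (l / 2) (by omega)
  rw [Real.dist_eq, abs_lt] at h2
  have h3 : Ps g m ≤ ∑' k : ℕ, g (2 ^ k) := hg.sum_le_tsum _ fun k _ => h0 _
  linarith [h2.1]

theorem log_bounds {l0 Y : ℕ} (hY : 2 ^ l0 ≤ Y) : l0 ≤ Nat.log 2 Y ∧ 2 ^ Nat.log 2 Y ≤ Y ∧ Y < 2 ^ (Nat.log 2 Y + 1) := by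
  have hY0 : Y ≠ 0 := by
    have : 0 < 2 ^ l0 := by positivity
    omega
  exact ⟨Nat.le_log_of_pow_le (by norm_num) hY, Nat.pow_log_le_self 2 hY0, Nat.lt_pow_succ_log_self (by norm_num) Y⟩

open scoped Classical in
/-- the surviving trajectories, deterministically -/
theorem alive_count {N Y : ℕ} {D : Set ℤ} {a b c : ℝ} (h1 : a ≤ (((Sv N).filter (fun x => Rch N Y x)).card : ℝ))
    (h2 : (((Sv N).filter (fun x => ¬ Reg Y x)).card : ℝ) ≤ b)
    (h3 : (((Sv N).filter (fun x => (Rch N Y x ∧ Reg Y x) ∧ ¬ Al N D Y x)).card : ℝ) < c) :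
    a - b - c ≤ (((Sv N).filter (fun x => (Y : ℤ) ≤ |x| ∧ Al N D Y x)).card : ℝ) := by
  have hsub : (Sv N).filter (fun x => Rch N Y x) ⊆ ((Sv N).filter (fun x => (Y : ℤ) ≤ |x| ∧ Al N D Y x) ∪
      (Sv N).filter (fun x => ¬ Reg Y x)) ∪ (Sv N).filter (fun x => (Rch N Y x ∧ Reg Y x) ∧ ¬ Al N D Y x) := by
    intro x hx
    rw [mem_filter] at hx
    rw [mem_union, mem_union, mem_filter, mem_filter, mem_filter]
    by_cases hr : Reg Y x
    · by_cases ha : Al N D Y x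
      · exact Or.inl (Or.inl ⟨hx.1, hr.2.2, ha⟩)
      · exact Or.inr ⟨hx.1, ⟨hx.2, hr⟩, ha⟩
    · exact Or.inl (Or.inr ⟨hx.1, hr⟩)
  have h4 := (card_le_card hsub).trans ((card_union_le _ _).trans (Nat.add_le_add_right (card_union_le _ _) _))
  have h5 : (((Sv N).filter (fun x => Rch N Y x)).card : ℝ) ≤
      ((Sv N).filter (fun x => (Y : ℤ) ≤ |x| ∧ Al N D Y x)).card + ((Sv N).filter (fun x => ¬ Reg Y x)).card +
      ((Sv N).filter (fun x => (Rch N Y x ∧ Reg Y x) ∧ ¬ Al N D Y x)).card := by exact_mod_cast h4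
  linarith

/-- the giant components keep their mass -/
theorem part1 {κ : ℝ} (hκ : Tendsto kap atTop (𝓝 κ)) {p : ℕ → ℝ} (hp : Antitone p) (h0 : ∀ n, 0 ≤ p n)
    (h1 : ∀ n, p n ≤ 1) (hs : Summable (fun n : ℕ => p n / n)) {ε : ℝ} (hε : 0 < ε) :
    ∃ c : ℝ, 0 < c ∧ ∀ᶠ N : ℕ in atTop, 1 - ε ≤ Pr (Sv N) (fun v => p v.natAbs)
      (fun D => (2 * κ - ε) * N ≤ ((Lg N D (c * N)).ncard : ℝ)) := by
  classical
  obtain ⟨Ya, Ha⟩ := rch_count hκ (show 0 < ε / 4 by positivity)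
  obtain ⟨Yb, Hb⟩ := few_irr (show 0 < ε / 4 by positivity)
  obtain ⟨l0, hl0⟩ := tail_small ((summable_pow hp h0).2 hs) h0 (show 0 < ε ^ 2 / 1200 by positivity)
  set Y := max (max Ya Yb) (2 ^ max l0 120) with hY
  obtain ⟨g1, g2, g3⟩ := log_bounds (le_max_right (max Ya Yb) (2 ^ max l0 120))
  rw [← hY] at g1 g2 g3
  obtain ⟨Na, ha⟩ := Ha Y ((le_max_left _ _).trans (le_max_left _ _))
  obtain ⟨Nb, hb⟩ := Hb Y ((le_max_right _ _).trans (le_max_left _ _))
  set c : ℝ := ε / (4 * (4 * Y + 1)) with hc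
  have hc0 : 0 < c := by positivity
  refine ⟨c, hc0, ?_⟩
  filter_upwards [eventually_ge_atTop (max (max Na Nb) 1)] with N hN
  have c1 : Na ≤ N := (le_max_left _ _).trans ((le_max_left _ _).trans hN)
  have c2 : Nb ≤ N := (le_max_right _ _).trans ((le_max_left _ _).trans hN)
  have c3 : 1 ≤ N := (le_max_right _ _).trans hN
  have hNR : (1 : ℝ) ≤ N := by exact_mod_cast c3
  have hq0 : ∀ v : ℤ, 0 ≤ p v.natAbs := fun v => h0 _
  have hq1 : ∀ v : ℤ, p v.natAbs ≤ 1 := fun v => h1 _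
  have hbad := surv h0 h1 hp h0 (M := 0) (fun n _ => le_rfl) ((le_max_right _ _).trans g1) g2 g3
    (hl0 _ ((le_max_left _ _).trans g1)) N (show 0 < ε / 4 * N by positivity)
  have hbad2 : (2 * N + 1) * (100 * (ε ^ 2 / 1200)) / (ε / 4 * N) ≤ ε := by
    rw [div_le_iff₀ (by positivity)]
    nlinarith [sq_nonneg ε]
  have hmono : Pr (Sv N) (fun v => p v.natAbs) (fun D => ¬ (ε / 4 * N ≤ (((Sv N).filter (fun x => (Rch N Y x ∧ Reg Y x) ∧
      ¬ Al N (Del 0 D) Y x)).card : ℝ))) ≤ Pr (Sv N) (fun v => p v.natAbs)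
      (fun D => (2 * κ - ε) * N ≤ ((Lg N D (c * N)).ncard : ℝ)) := by
    apply Pr_mono hq0 hq1
    intro D _ hD
    rw [not_le, Del_zero] at hD
    have h2 := alive_count (ha N c1) (hb N c2) hD
    have h3 := roots (N := N) (Y := Y) (D : Set ℤ) (t := c * N) (by positivity)
    have h4 : (4 * (Y : ℝ) + 1) * (c * N) = ε / 4 * N := by
      rw [hc]; field_simp
    have h5 : (((Sv N).filter (fun x => (Y : ℤ) ≤ |x| ∧ Al N (D : Set ℤ) Y x)).card : ℝ) ≤
        (Lg N D (c * N)).ncard + ε / 4 * N := by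
      rw [← h4]
      unfold Sv
      exact h3
    linarith
  rw [Pr_not] at hmono
  linarith

/-! ### the extinction -/

open scoped Classical in
/-- a bound for the size of a component in the number of the living trajectories -/
theorem comp_bound {N Y : ℕ} {D : Set ℤ} {K : ℝ}
    (hK : (Set.ncard {q : ℤ × ℤ | |q.1| ≤ N ∧ |q.2| ≤ N ∧ MeetAbove Y q.1 q.2} : ℝ) ≤ K) (x0 : ℤ) :
    ((CompW (V N D) x0).ncard : ℝ) ^ 2 ≤ K +
      2 * ((2 * N + 1) * (((Sv N).filter (fun x => Al N D Y x)).card : ℝ)) := by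
  have hPfin : {q : ℤ × ℤ | |q.1| ≤ N ∧ |q.2| ≤ N ∧ MeetAbove Y q.1 q.2}.Finite := by
    apply ((Set.finite_Icc (-(N : ℤ)) N).prod (Set.finite_Icc (-(N : ℤ)) N)).subset
    rintro ⟨y, z⟩ ⟨hy, hz, _⟩
    rw [abs_le] at hy hz
    exact ⟨hy, hz⟩
  set S := (CompW_fin N D x0).toFinset with hS
  have hSmem : ∀ y, y ∈ S ↔ y ∈ CompW (V N D) x0 := fun y => by rw [hS, Set.Finite.mem_toFinset]
  set A := (Sv N).filter (fun x => Al N D Y x) with hA
  have hSv : ∀ y ∈ S, y ∈ Sv N := by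
    intro y hy
    exact abs_Icc.2 (MtW_right (mem_CompW.1 ((hSmem y).1 hy))).1
  have hsub : S ×ˢ S ⊆ hPfin.toFinset ∪ (A ×ˢ Sv N ∪ Sv N ×ˢ A) := by
    rintro ⟨y, z⟩ hyz
    rw [mem_product] at hyz
    obtain ⟨hy, hz⟩ := hyz
    simp only at hy hz
    have h3 : MtW (V N D) y z := MtW_trans (MtW_symm (mem_CompW.1 ((hSmem y).1 hy))) (mem_CompW.1 ((hSmem z).1 hz))
    rw [mem_union, mem_union, mem_product, mem_product]
    obtain ⟨i, j, e1, e2, e3⟩ := h3
    by_cases hc1 : ∃ a ≤ i, |C^[a] y| < Y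
    · right; left
      obtain ⟨a, ha, hlt⟩ := hc1
      refine ⟨?_, hSv z hz⟩
      rw [hA, mem_filter]
      exact ⟨hSv y hy, a, hlt, fun b hb => e2 b (by omega)⟩
    · by_cases hc2 : ∃ b ≤ j, |C^[b] z| < Y
      · right; right
        obtain ⟨a, ha, hlt⟩ := hc2
        refine ⟨hSv y hy, ?_⟩
        rw [hA, mem_filter]
        exact ⟨hSv z hz, a, hlt, fun b hb => e3 b (by omega)⟩
      · left
        push Not at hc1 hc2
        rw [Set.Finite.mem_toFinset]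
        have cast : ∀ u : ℤ, (Y : ℤ) ≤ |u| → (Y : ℝ) ≤ |(u : ℝ)| := by
          intro u hu
          have : ((Y : ℤ) : ℝ) ≤ ((|u| : ℤ) : ℝ) := by exact_mod_cast hu
          rw [Int.cast_abs] at this
          exact_mod_cast this
        refine ⟨(e2 0 (Nat.zero_le _)).1, (e3 0 (Nat.zero_le _)).1, i, j, ?_, fun a ha => ?_, fun b hb => ?_⟩
        · rw [C_pm_iter, C_pm_iter]; exact e1
        · rw [C_pm_iter]; exact cast _ (hc1 a ha)
        · rw [C_pm_iter]; exact cast _ (hc2 b hb)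
  have h1 := (card_le_card hsub).trans ((card_union_le _ _).trans (Nat.add_le_add_left (card_union_le _ _) _))
  rw [card_product, card_product, card_product, Sv_card] at h1
  have h2 : (S.card : ℝ) * S.card ≤ (hPfin.toFinset.card : ℝ) + (A.card * (2 * N + 1) + (2 * N + 1) * A.card) := by
    exact_mod_cast h1
  rw [← Set.ncard_eq_toFinset_card _ hPfin] at h2
  rw [Set.ncard_eq_toFinset_card _ (CompW_fin N D x0), sq]
  have e : (A.card : ℝ) * (2 * N + 1) + (2 * N + 1) * A.card = 2 * ((2 * N + 1) * A.card) := by ring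
  linarith

/-- there are no giant components -/
theorem part2 {p : ℕ → ℝ} (hp : Antitone p) (h0 : ∀ n, 0 ≤ p n)
    (h1 : ∀ n, p n ≤ 1) (hs : ¬ Summable (fun n : ℕ => p n / n)) {c : ℝ} (hc : 0 < c) :
    Tendsto (fun N : ℕ => Pr (Sv N) (fun v => p v.natAbs)
      (fun D => ∃ x : ℤ, c * N ≤ ((CompW (V N D) x).ncard : ℝ))) atTop (𝓝 0) := by
  classical
  have hq0 : ∀ v : ℤ, 0 ≤ p v.natAbs := fun v => h0 _
  have hq1 : ∀ v : ℤ, p v.natAbs ≤ 1 := fun v => h1 _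
  have hdiv : Tendsto (fun m : ℕ => Ps p m) atTop atTop := by
    rw [← summable_pow hp h0] at hs
    exact (not_summable_iff_tendsto_nat_atTop_of_nonneg (fun k => h0 _)).1 hs
  rw [Metric.tendsto_atTop]
  intro ε hε
  obtain ⟨K, HK⟩ := Pool.Agent.Results.MP_d02c56_nt.PairsMeetLow.result 1
  set ε' : ℝ := c ^ 2 / 32 with hε'
  have hε'0 : 0 < ε' := by positivity
  obtain ⟨Yb, Hb⟩ := few_irr (show 0 < ε' / 4 by positivity)
  obtain ⟨Yc, hYc⟩ := exists_nat_ge (Real.exp (4 * |K| / c ^ 2))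
  set Y := max (max Yb Yc) (2 ^ 120) with hY
  obtain ⟨g1, g2, g3⟩ := log_bounds (le_max_right (max Yb Yc) (2 ^ 120))
  rw [← hY] at g1 g2 g3
  set l := Nat.log 2 Y with hl
  obtain ⟨Nb, hb⟩ := Hb Y ((le_max_left _ _).trans (le_max_left _ _))
  have hY2 : (2 : ℝ) ≤ Y := by
    have : 2 ^ 120 ≤ Y := le_max_right _ _
    exact_mod_cast (by norm_num : 2 ≤ 2 ^ 120).trans this
  have hlogY : 4 * |K| / c ^ 2 ≤ Real.log Y := by
    rw [← Real.log_exp (4 * |K| / c ^ 2)]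
    apply Real.log_le_log (Real.exp_pos _)
    refine hYc.trans ?_
    exact_mod_cast (le_max_right _ _).trans (le_max_left _ _)
  have hlog0 : 0 < Real.log Y := Real.log_pos (by linarith)
  -- the length of the paths
  set R : ℝ := Real.log (12 / (ε' * ε)) with hR
  obtain ⟨m0, hm0⟩ := (tendsto_atTop_atTop.1 hdiv) (2 * R + Ps p (3 * l + 3))
  have hRk : ∀ k, m0 ≤ k → R ≤ 1 / 2 * (Ps p (2 * k) - Ps p (3 * l + 3)) := by
    intro k hk
    have := hm0 (2 * k) (by omega)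
    linarith
  obtain ⟨N1, hN1⟩ := exists_nat_ge ((2 * 2 ^ m0 + 1) * 4 / ε')
  refine ⟨max (max Nb N1) 1, fun N hN => ?_⟩
  have c1 : Nb ≤ N := (le_max_left _ _).trans ((le_max_left _ _).trans hN)
  have c2 : N1 ≤ N := (le_max_right _ _).trans ((le_max_left _ _).trans hN)
  have c3 : 1 ≤ N := (le_max_right _ _).trans hN
  have hNR : (1 : ℝ) ≤ N := by exact_mod_cast c3
  have hcut := cutoff h0 h1 hp g1 g2 g3 hRk N (show 0 < ε' / 2 * N by positivity)
  have hexp : Real.exp (-R) = ε' * ε / 12 := by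
    rw [hR, Real.exp_neg, Real.exp_log (by positivity)]
    field_simp
  have hcut2 : (2 * N + 1) * Real.exp (-R) / (ε' / 2 * N) ≤ ε / 2 := by
    rw [hexp, div_le_iff₀ (by positivity)]
    have : 0 < ε' * ε := by positivity
    nlinarith
  have hmono : Pr (Sv N) (fun v => p v.natAbs) (fun D => ∃ x : ℤ, c * N ≤ ((CompW (V N D) x).ncard : ℝ)) ≤
      Pr (Sv N) (fun v => p v.natAbs) (fun D => ε' / 2 * N ≤ (((Sv N).filter (fun x => (Reg Y x ∧ (2 : ℝ) ^ m0 ≤ |(x : ℝ)|) ∧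
      Al N D Y x)).card : ℝ)) := by
    apply Pr_mono hq0 hq1
    rintro D _ ⟨x, hx⟩
    by_contra hcon
    rw [not_le] at hcon
    -- the number of living trajectories
    have hA : (((Sv N).filter (fun x => Al N D Y x)).card : ℝ) < ε' * N := by
      have hsub : (Sv N).filter (fun x => Al N D Y x) ⊆ ((Sv N).filter (fun x => (Reg Y x ∧ (2 : ℝ) ^ m0 ≤ |(x : ℝ)|) ∧ Al N D Y x) ∪
          (Sv N).filter (fun x => ¬ Reg Y x)) ∪ Icc (-((2 ^ m0 : ℕ) : ℤ)) ((2 ^ m0 : ℕ) : ℤ) := by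
        intro x hx
        rw [mem_filter] at hx
        rw [mem_union, mem_union, mem_filter, mem_filter]
        by_cases hr : Reg Y x
        · by_cases hb : (2 : ℝ) ^ m0 ≤ |(x : ℝ)|
          · exact Or.inl (Or.inl ⟨hx.1, ⟨hr, hb⟩, hx.2⟩)
          · right
            rw [not_le] at hb
            rw [abs_Icc]
            have h3 : ((|x| : ℤ) : ℝ) ≤ (((2 ^ m0 : ℕ) : ℤ) : ℝ) := by
              rw [Int.cast_abs]; push_cast; exact hb.le
            exact_mod_cast h3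
        · exact Or.inl (Or.inr ⟨hx.1, hr⟩)
      have h4 := (card_le_card hsub).trans ((card_union_le _ _).trans (Nat.add_le_add_right (card_union_le _ _) _))
      rw [card_abs] at h4
      have h5 : (((Sv N).filter (fun x => Al N D Y x)).card : ℝ) ≤
          ((Sv N).filter (fun x => (Reg Y x ∧ (2 : ℝ) ^ m0 ≤ |(x : ℝ)|) ∧ Al N D Y x)).card +
          ((Sv N).filter (fun x => ¬ Reg Y x)).card + (2 * 2 ^ m0 + 1) := by exact_mod_cast h4
      have h6 : (((Sv N).filter (fun x => ¬ Reg Y x)).card : ℝ) ≤ ε' / 4 * N := hb N c1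
      have h7 : (2 * 2 ^ m0 + 1 : ℝ) ≤ ε' / 4 * N := by
        have h8 : (N1 : ℝ) ≤ N := by exact_mod_cast c2
        have h9 := hN1.trans h8
        rw [div_le_iff₀ hε'0] at h9
        linarith
      linarith
    have hB := comp_bound (N := N) (D := (D : Set ℤ)) (HK Y hY2 N) x
    rw [pow_one] at hB
    have h3 : K * (N : ℝ) ^ 2 / Real.log Y ≤ c ^ 2 / 4 * (N : ℝ) ^ 2 := by
      rw [div_le_iff₀ hlog0]
      rw [div_le_iff₀ (by positivity)] at hlogY
      have h4 : K ≤ c ^ 2 / 4 * Real.log Y := by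
        have := le_abs_self K
        linarith
      nlinarith [sq_nonneg (N : ℝ)]
    have h4 : (c * N) ^ 2 ≤ ((CompW (V N D) x).ncard : ℝ) ^ 2 := pow_le_pow_left₀ (by positivity) hx 2
    have h5 : 2 * ((2 * N + 1) * (((Sv N).filter (fun x => Al N D Y x)).card : ℝ)) ≤ 2 * (3 * N * (ε' * N)) := by
      apply mul_le_mul_of_nonneg_left _ (by norm_num)
      exact mul_le_mul (by linarith) hA.le (Nat.cast_nonneg _) (by positivity)
    have h6 : (c * N) ^ 2 ≤ c ^ 2 / 4 * (N : ℝ) ^ 2 + 2 * (3 * N * (c ^ 2 / 32 * N)) := by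
      rw [← hε']
      linarith
    have h7 : 0 < c ^ 2 * (N : ℝ) ^ 2 := by positivity
    nlinarith
  rw [Real.dist_eq, sub_zero, abs_of_nonneg (Pr_nonneg hq0 hq1 _)]
  linarith

end Pool.Agent.H623.RB
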