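import Pool.Agent.H623.RB.G

/-! Robustness, part H: the upper bound for the mass, thin sets, attacks. -/

set_option autoImplicit false

namespace Pool.Agent.H623.RB

open Finset Filter Topology
open Pool.Agent.H623.TG
open Pool.Agent.R344.TH (HY Cz fA mem_fA)
open Pool.Agent.W41

/-- the mass of the large components is at most the total mass -/
theorem part3 {κ : ℝ} (hκ : Tendsto kap atTop (𝓝 κ)) {ε : ℝ} (hε : 0 < ε) : ∃ M : ℕ, ∀ᶠ N : ℕ in atTop, ∀ D : Set ℤ,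
    ({x : ℤ | |x| ≤ N ∧ M < (CompW (V N D) x).ncard}.ncard : ℝ) ≤ (2 * κ + ε) * N := by
  classical
  obtain ⟨Y1, H1⟩ := share (s := 1) (Or.inl rfl) hκ (show 0 < ε / 4 by positivity)
  obtain ⟨Y2, H2⟩ := share (s := -1) (Or.inr rfl) hκ (show 0 < ε / 4 by positivity)
  obtain ⟨M1, N3, H3⟩ := tight (show 0 < ε / 4 by positivity)
  set M := max (max Y1 Y2) M1 with hM
  obtain ⟨N1, h1⟩ := H1 M ((le_max_left _ _).trans (le_max_left _ _))
  obtain ⟨N2, h2⟩ := H2 M ((le_max_right _ _).trans (le_max_left _ _))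
  obtain ⟨N4, hN4⟩ := exists_nat_ge (4 / ε)
  refine ⟨M, ?_⟩
  filter_upwards [eventually_ge_atTop (max (max N1 N2) (max N3 N4))] with N hN D
  have c1 : N1 ≤ N := (le_max_left _ _).trans ((le_max_left _ _).trans hN)
  have c2 : N2 ≤ N := (le_max_right _ _).trans ((le_max_left _ _).trans hN)
  have c3 : N3 ≤ N := (le_max_left _ _).trans ((le_max_right _ _).trans hN)
  have c4 : N4 ≤ N := (le_max_right _ _).trans ((le_max_right _ _).trans hN)
  have a1 := h1 N c1 Set.univ (fun x => by simp) 1 (univ_HD (Or.inl rfl))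
  have a2 := h2 N c2 Set.univ (fun x => by simp) 1 (univ_HD (Or.inr rfl))
  rw [Set.univ_inter] at a1 a2
  have a3 := H3 N c3
  have hfin : {x : ℤ | |x| ≤ N ∧ M < (CompW (V N D) x).ncard}.Finite := fin_abs _ N
  have hsub : hfin.toFinset ⊆ (Icc (-(N : ℤ)) N).filter (fun x => x ∈ Bg N M) ∪ (Odd'_fin N M1).toFinset := by
    intro x hx
    rw [Set.Finite.mem_toFinset] at hx
    obtain ⟨hx1, hx2⟩ := hx
    have hx3 : M < (Comp N x).ncard := lt_of_lt_of_le hx2 (CompW_card N D x)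
    rw [mem_union, mem_filter, abs_Icc, Set.Finite.mem_toFinset]
    by_cases hb : x ∈ Bg N M
    · exact Or.inl ⟨hx1, hb⟩
    · right
      refine ⟨hx1, lt_of_le_of_lt (le_max_right _ _) hx3, fun z hz => ?_⟩
      by_contra hcon
      apply hb
      refine ⟨z, hz, (not_lt.1 hcon).trans ?_⟩
      exact_mod_cast le_max_right _ _
  have h5 := (card_le_card hsub).trans ((card_union_le _ _).trans (Nat.add_le_add_right (split_le _ N) _))
  rw [← Set.ncard_eq_toFinset_card _ hfin, ← Set.ncard_eq_toFinset_card _ (Odd'_fin N M1)] at h5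
  have h6 : ({x : ℤ | |x| ≤ N ∧ M < (CompW (V N D) x).ncard}.ncard : ℝ) ≤
      cF 1 (Bg N M) N + cF (-1) (Bg N M) N + 1 + (Odd' N M1).ncard := by exact_mod_cast h5
  have h7 : (1 : ℝ) ≤ ε / 4 * N := by
    have h8 : (N4 : ℝ) ≤ N := by exact_mod_cast c4
    have h9 := hN4.trans h8
    rw [div_le_iff₀ hε] at h9
    linarith
  rw [abs_le] at a1 a2
  linarith [a1.2, a2.2]

/-- the trajectory of `x` meets `D` before it takes a value below `Y` -/
def MtD (D : Set ℤ) (Y : ℕ) (x : ℤ) : Prop := ∃ k : ℕ, C^[k] x ∈ D ∧ ∀ j ≤ k, (Y : ℤ) ≤ |C^[j] x|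

open scoped Classical in
theorem thin_D {θ : ℝ} (hθ : 0 < θ) {ε : ℝ} (hε : 0 < ε) : ∃ Y0 : ℕ, ∀ Y : ℕ, Y0 ≤ Y → ∃ N0 : ℕ, ∀ N : ℕ, N0 ≤ N →
    ∀ D : Set ℤ, (∀ X : ℝ, (Y : ℝ) ≤ X → ({v : ℤ | v ∈ D ∧ Y ≤ |(v : ℝ)| ∧ |(v : ℝ)| ≤ X}.ncard : ℝ) ≤
      X * Real.exp (-(Real.log X) ^ θ)) →
    (((Sv N).filter (fun x => MtD D Y x)).card : ℝ) ≤ ε * N := by
  obtain ⟨K1, hK1, H1⟩ := Pool.Agent.R344.TH.thin_Cz (d := 1) (by decide) isCoprime_one_left hθ 1
  obtain ⟨K2, hK2, H2⟩ := Pool.Agent.R344.TH.thin_Cz (d := -1) (by decide) (isCoprime_one_left).neg_left hθ 1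
  obtain ⟨Y0, hY0⟩ := exists_nat_ge (Real.exp (3 * (K1 + K2) / ε))
  refine ⟨max Y0 2, fun Y hY => ?_⟩
  obtain ⟨N0, hN0⟩ := exists_nat_ge (3 / ε)
  refine ⟨N0, fun N hN D hD => ?_⟩
  have hY2 : (2 : ℝ) ≤ Y := by exact_mod_cast (le_max_right _ _).trans hY
  have hlogY : 3 * (K1 + K2) / ε ≤ Real.log Y := by
    rw [← Real.log_exp (3 * (K1 + K2) / ε)]
    apply Real.log_le_log (Real.exp_pos _)
    refine hY0.trans ?_
    exact_mod_cast (le_max_left _ _).trans hY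
  have hlog0 : 0 < Real.log Y := Real.log_pos (by linarith)
  -- the two sides
  have hside : ∀ s : ℤ, (s = 1 ∨ s = -1) → ∀ X : ℝ, (Y : ℝ) ≤ X → ((fA {n : ℤ | s * n ∈ D} Y X).card : ℝ) ≤
      X * Real.exp (-(Real.log X) ^ θ) := by
    intro s hs X hX
    refine le_trans ?_ (hD X hX)
    have hfin : {v : ℤ | v ∈ D ∧ Y ≤ |(v : ℝ)| ∧ |(v : ℝ)| ≤ X}.Finite := by
      apply (Set.finite_Icc (-⌈X⌉) ⌈X⌉).subset
      rintro v ⟨_, _, hv⟩
      rw [abs_le] at hv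
      have h1 := Int.le_ceil X
      constructor
      · have : ((-⌈X⌉ : ℤ) : ℝ) ≤ v := by push_cast; linarith [hv.1]
        exact_mod_cast this
      · have : (v : ℝ) ≤ ((⌈X⌉ : ℤ) : ℝ) := by linarith [hv.2]
        exact_mod_cast this
    have hinj : ((fA {n : ℤ | s * n ∈ D} Y X).image (fun n => s * n)).card = (fA {n : ℤ | s * n ∈ D} Y X).card := by
      apply card_image_of_injective
      intro a b hab
      have h1 : s * (s * a) = s * (s * b) := by simp only at hab; rw [hab]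
      rwa [s_mul hs, s_mul hs] at h1
    rw [← hinj, ← Set.ncard_coe_finset]
    have h1 : (((fA {n : ℤ | s * n ∈ D} Y X).image (fun n => s * n) : Finset ℤ) : Set ℤ).ncard ≤
        {v : ℤ | v ∈ D ∧ Y ≤ |(v : ℝ)| ∧ |(v : ℝ)| ≤ X}.ncard := by
      apply Set.ncard_le_ncard _ hfin
      intro v hv
      rw [mem_coe, mem_image] at hv
      obtain ⟨n, hn, rfl⟩ := hv
      rw [mem_fA] at hn
      obtain ⟨⟨h2, h3⟩, h4⟩ := hn
      have h5 : |((s * n : ℤ) : ℝ)| = n := by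
        have h6 : (0 : ℝ) ≤ n := by linarith
        push_cast
        rw [abs_mul, abs_of_nonneg h6]
        rcases hs with rfl | rfl <;> simp
      exact ⟨h4, by rw [h5]; exact h2, by rw [h5]; exact h3⟩
    exact_mod_cast h1
  have b1 := H1 Y hY2 _ (hside 1 (Or.inl rfl)) N
  have b2 := H2 Y hY2 _ (hside (-1) (Or.inr rfl)) N
  rw [pow_one] at b1 b2
  have hsub : (Sv N).filter (fun x => MtD D Y x) ⊆
      (Icc (1 : ℤ) N).filter (fun n => ∃ k : ℕ, (Cz 1)^[k] n ∈ {n : ℤ | 1 * n ∈ D} ∧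
        ∀ j ≤ k, (Y : ℝ) ≤ (((Cz 1)^[j] n : ℤ) : ℝ)) ∪
      ((Icc (1 : ℤ) N).filter (fun n => ∃ k : ℕ, (Cz (-1))^[k] n ∈ {n : ℤ | -1 * n ∈ D} ∧
        ∀ j ≤ k, (Y : ℝ) ≤ (((Cz (-1))^[j] n : ℤ) : ℝ))).image (fun n => -n) := by
    intro x hx
    rw [mem_filter] at hx
    obtain ⟨hxN, k, hk1, hk2⟩ := hx
    have hxN' : |x| ≤ N := abs_Icc.1 hxN
    have hx0 : x ≠ 0 := by
      rintro rfl
      have h3 := hk2 0 (Nat.zero_le _)
      simp at h3
      have : 2 ≤ Y := (le_max_right _ _).trans hY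
      omega
    have gen : ∀ s : ℤ, (s = 1 ∨ s = -1) → ∀ n : ℤ, 0 < n → x = s * n →
        ∃ k : ℕ, (Cz s)^[k] n ∈ {n : ℤ | s * n ∈ D} ∧ ∀ j ≤ k, (Y : ℝ) ≤ (((Cz s)^[j] n : ℤ) : ℝ) := by
      intro s hs n hn hxn
      refine ⟨k, ?_, fun j hj => ?_⟩
      · show s * (Cz s)^[k] n ∈ D
        rw [← C_side_iter hs, ← hxn]; exact hk1
      · have h3 := hk2 j hj
        rw [hxn, abs_side hs hn] at h3
        exact_mod_cast h3
    rw [mem_union, mem_image]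
    rw [abs_le] at hxN'
    rcases lt_or_gt_of_ne hx0 with h | h
    · right
      refine ⟨-x, ?_, by ring⟩
      rw [mem_filter, mem_Icc]
      exact ⟨by omega, gen (-1) (Or.inr rfl) (-x) (by omega) (by ring)⟩
    · left
      rw [mem_filter, mem_Icc]
      exact ⟨by omega, gen 1 (Or.inl rfl) x h (by ring)⟩
  have h4 := (card_le_card hsub).trans ((card_union_le _ _).trans (Nat.add_le_add_left card_image_le _))
  have h5 : (((Sv N).filter (fun x => MtD D Y x)).card : ℝ) ≤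
      ((Icc (1 : ℤ) N).filter (fun n => ∃ k : ℕ, (Cz 1)^[k] n ∈ {n : ℤ | 1 * n ∈ D} ∧
        ∀ j ≤ k, (Y : ℝ) ≤ (((Cz 1)^[j] n : ℤ) : ℝ))).card +
      ((Icc (1 : ℤ) N).filter (fun n => ∃ k : ℕ, (Cz (-1))^[k] n ∈ {n : ℤ | -1 * n ∈ D} ∧
        ∀ j ≤ k, (Y : ℝ) ≤ (((Cz (-1))^[j] n : ℤ) : ℝ))).card := by exact_mod_cast h4
  have h6 : K1 * N / Real.log Y + K2 * N / Real.log Y ≤ ε / 3 * N := by
    rw [← add_div, div_le_iff₀ hlog0]
    rw [div_le_iff₀ hε] at hlogY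
    have hN0' : (0 : ℝ) ≤ N := Nat.cast_nonneg N
    nlinarith
  have hN0' : (0 : ℝ) ≤ N := Nat.cast_nonneg N
  nlinarith

open scoped Classical in
/-- thin sets do not destroy the giant components -/
theorem thin_alive {κ : ℝ} (hκ : Tendsto kap atTop (𝓝 κ)) {θ : ℝ} (hθ : 0 < θ) {ε : ℝ} (hε : 0 < ε) :
    ∃ Y0 : ℕ, ∀ Y : ℕ, Y0 ≤ Y → ∃ N0 : ℕ, ∀ N : ℕ, N0 ≤ N →
    ∀ D : Set ℤ, (∀ X : ℝ, (Y : ℝ) ≤ X → ({v : ℤ | v ∈ D ∧ Y ≤ |(v : ℝ)| ∧ |(v : ℝ)| ≤ X}.ncard : ℝ) ≤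
      X * Real.exp (-(Real.log X) ^ θ)) →
    (2 * κ - ε) * N ≤ (((Sv N).filter (fun x => (Y : ℤ) ≤ |x| ∧ Al N D Y x)).card : ℝ) := by
  obtain ⟨Ya, Ha⟩ := rch_count hκ (show 0 < ε / 3 by positivity)
  obtain ⟨Yb, Hb⟩ := thin_D hθ (show 0 < ε / 3 by positivity)
  refine ⟨max Ya Yb, fun Y hY => ?_⟩
  obtain ⟨Na, ha⟩ := Ha Y ((le_max_left _ _).trans hY)
  obtain ⟨Nb, hb⟩ := Hb Y ((le_max_right _ _).trans hY)
  obtain ⟨N1, hN1⟩ := exists_nat_ge ((2 * Y + 1) * 3 / ε)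
  refine ⟨max (max Na Nb) N1, fun N hN D hD => ?_⟩
  have c1 : Na ≤ N := (le_max_left _ _).trans ((le_max_left _ _).trans hN)
  have c2 : Nb ≤ N := (le_max_right _ _).trans ((le_max_left _ _).trans hN)
  have c3 : N1 ≤ N := (le_max_right _ _).trans hN
  have a1 := ha N c1
  have a2 := hb N c2 D hD
  have hsub : (Icc (-(N : ℤ)) N).filter (fun x => Rch N Y x) ⊆ ((Sv N).filter (fun x => (Y : ℤ) ≤ |x| ∧ Al N D Y x) ∪
      (Sv N).filter (fun x => MtD D Y x)) ∪ Icc (-(Y : ℤ)) Y := by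
    intro x hx
    rw [mem_filter] at hx
    rw [mem_union, mem_union, mem_filter, mem_filter, abs_Icc]
    by_cases hY : |x| ≤ Y
    · exact Or.inr hY
    · left
      by_cases hm : MtD D Y x
      · exact Or.inr ⟨hx.1, hm⟩
      · left
        refine ⟨hx.1, (not_le.1 hY).le, ?_⟩
        obtain ⟨i0, f1, f2⟩ := hx.2
        have f1' : |C^[i0] x| < Y := by
          have : ((|C^[i0] x| : ℤ) : ℝ) < ((Y : ℤ) : ℝ) := by push_cast; push_cast at f1; exact f1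
          exact_mod_cast this
        have hex : ∃ i : ℕ, |C^[i] x| < Y := ⟨i0, f1'⟩
        refine ⟨Nat.find hex, Nat.find_spec hex, fun a ha => ⟨?_, fun hD2 => ?_⟩⟩
        · exact f2 a (ha.le.trans (Nat.find_le f1'))
        · apply hm
          refine ⟨a, hD2, fun j hj => ?_⟩
          exact not_lt.1 (Nat.find_min hex (lt_of_le_of_lt hj ha))
  have h4 := (card_le_card hsub).trans ((card_union_le _ _).trans (Nat.add_le_add_right (card_union_le _ _) _))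
  rw [card_abs] at h4
  have h5 : (((Icc (-(N : ℤ)) N).filter (fun x => Rch N Y x)).card : ℝ) ≤
      ((Sv N).filter (fun x => (Y : ℤ) ≤ |x| ∧ Al N D Y x)).card + ((Sv N).filter (fun x => MtD D Y x)).card +
      (2 * Y + 1) := by exact_mod_cast h4
  have h7 : (2 * Y + 1 : ℝ) ≤ ε / 3 * N := by
    have h8 : (N1 : ℝ) ≤ N := by exact_mod_cast c3
    have h9 := hN1.trans h8
    rw [div_le_iff₀ hε] at h9
    linarith
  linarith

theorem ncard_part {D : Set ℤ} {Y X : ℝ} : {v : ℤ | v ∈ D ∧ Y ≤ |(v : ℝ)| ∧ |(v : ℝ)| ≤ X}.ncard ≤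
    {v : ℤ | v ∈ D ∧ |(v : ℝ)| ≤ X}.ncard := by
  apply Set.ncard_le_ncard
  · rintro v ⟨h1, _, h2⟩
    exact ⟨h1, h2⟩
  · apply (Set.finite_Icc (-⌈X⌉) ⌈X⌉).subset
    rintro v ⟨_, hv⟩
    rw [abs_le] at hv
    have h1 := Int.le_ceil X
    constructor
    · have : ((-⌈X⌉ : ℤ) : ℝ) ≤ v := by push_cast; linarith [hv.1]
      exact_mod_cast this
    · have : (v : ℝ) ≤ ((⌈X⌉ : ℤ) : ℝ) := by linarith [hv.2]
      exact_mod_cast this

/-- thin sets do not destroy the giant components -/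
theorem part5 {κ : ℝ} (hκ : Tendsto kap atTop (𝓝 κ)) {D : Set ℤ} {θ : ℝ} (hθ : 0 < θ)
    (hD : ∀ᶠ X : ℝ in atTop, ({v : ℤ | v ∈ D ∧ |(v : ℝ)| ≤ X}.ncard : ℝ) ≤ X * Real.exp (-(Real.log X) ^ θ))
    {ε : ℝ} (hε : 0 < ε) : ∃ c : ℝ, 0 < c ∧ ∀ᶠ N : ℕ in atTop, (2 * κ - ε) * N ≤ ((Lg N D (c * N)).ncard : ℝ) := by
  classical
  obtain ⟨Y0, H⟩ := thin_alive hκ hθ (show 0 < ε / 2 by positivity)
  obtain ⟨X0, hX0⟩ := eventually_atTop.1 hD
  obtain ⟨Y1, hY1⟩ := exists_nat_ge X0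
  set Y := max Y0 Y1 with hY
  obtain ⟨N0, hN0⟩ := H Y (le_max_left _ _)
  set c : ℝ := ε / (2 * (4 * Y + 1)) with hc
  refine ⟨c, by positivity, ?_⟩
  filter_upwards [eventually_ge_atTop N0] with N hN
  have h1 := hN0 N hN D (fun X hX => by
    refine le_trans ?_ (hX0 X ((hY1.trans (by exact_mod_cast le_max_right _ _)).trans hX))
    exact Nat.cast_le.2 ncard_part)
  have h3 := roots (N := N) (Y := Y) D (t := c * N) (by positivity)
  have h4 : (4 * (Y : ℝ) + 1) * (c * N) = ε / 2 * N := by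
    rw [hc]; field_simp
  have h5 : (((Sv N).filter (fun x => (Y : ℤ) ≤ |x| ∧ Al N D Y x)).card : ℝ) ≤ (Lg N D (c * N)).ncard + ε / 2 * N := by
    rw [← h4]
    unfold Sv
    exact h3
  linarith

/-- few vertices do not destroy the large components -/
theorem part6 {κ : ℝ} (hκ : Tendsto kap atTop (𝓝 κ)) (hκ1 : 1 / 3 ≤ κ) {η : ℝ} (hη : 0 < η) : ∃ M0 : ℕ, ∀ M : ℕ, M0 ≤ M →
    ∀ᶠ N : ℕ in atTop, ∀ D : Finset ℤ, D.card ≤ M → ∃ x : ℤ,
      (N : ℝ) / (M : ℝ) ^ (1 + η) ≤ ((CompW (V N D) x).ncard : ℝ) := by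
  classical
  obtain ⟨Y0, H⟩ := thin_alive hκ (θ := 1 / 2) (by norm_num) (ε := 1 / 6) (by norm_num)
  set b : ℝ := 1 + η / 2 with hb
  have hb1 : 1 < b := by rw [hb]; linarith
  -- the conditions on M
  have t1 : Tendsto (fun M : ℕ => (M : ℝ) ^ b) atTop atTop :=
    (tendsto_rpow_atTop (by linarith)).comp tendsto_natCast_atTop_atTop
  have t2 : Tendsto (fun M : ℕ => (M : ℝ) ^ (η / 2)) atTop atTop :=
    (tendsto_rpow_atTop (by linarith)).comp tendsto_natCast_atTop_atTop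
  obtain ⟨M1, hM1⟩ := eventually_atTop.1 (t1.eventually_ge_atTop (max (Y0 : ℝ) (Real.exp ((b / (b - 1)) ^ 2))))
  obtain ⟨M2, hM2⟩ := eventually_atTop.1 (t2.eventually_ge_atTop 19)
  refine ⟨max (max M1 M2) 1, fun M hM => ?_⟩
  have d1 := hM1 M ((le_max_left _ _).trans ((le_max_left _ _).trans hM))
  have d2 := hM2 M ((le_max_right _ _).trans ((le_max_left _ _).trans hM))
  have d3 : 1 ≤ M := (le_max_right _ _).trans hM
  have hMR : (1 : ℝ) ≤ M := by exact_mod_cast d3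
  have hM0 : (0 : ℝ) < M := by linarith
  set Y := ⌈(M : ℝ) ^ b⌉₊ with hY
  have hY1 : (M : ℝ) ^ b ≤ Y := Nat.le_ceil _
  have hY2 : (Y : ℝ) < (M : ℝ) ^ b + 1 := Nat.ceil_lt_add_one (by positivity)
  have hY3 : Y0 ≤ Y := by
    have : (Y0 : ℝ) ≤ Y := ((le_max_left _ _).trans d1).trans hY1
    exact_mod_cast this
  obtain ⟨N0, hN0⟩ := H Y hY3
  filter_upwards [eventually_ge_atTop (max N0 1)] with N hN D hD
  have hNR : (1 : ℝ) ≤ N := by exact_mod_cast (le_max_right _ _).trans hN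
  have h1 := hN0 N ((le_max_left _ _).trans hN) (D : Set ℤ) (fun X hX => by
    have e1 : ({v : ℤ | v ∈ (D : Set ℤ) ∧ Y ≤ |(v : ℝ)| ∧ |(v : ℝ)| ≤ X}.ncard : ℝ) ≤ M := by
      have h2 : {v : ℤ | v ∈ (D : Set ℤ) ∧ Y ≤ |(v : ℝ)| ∧ |(v : ℝ)| ≤ X}.ncard ≤ (D : Set ℤ).ncard :=
        Set.ncard_le_ncard (fun v hv => hv.1) D.finite_toSet
      rw [Set.ncard_coe_finset] at h2
      exact_mod_cast h2.trans hD
    refine e1.trans ?_
    have hX1 : (M : ℝ) ^ b ≤ X := hY1.trans hX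
    have hX0 : 0 < X := lt_of_lt_of_le (by positivity) hX1
    have e2 : Real.exp ((b / (b - 1)) ^ 2) ≤ X := ((le_max_right _ _).trans d1).trans hX1
    have e3 : (b / (b - 1)) ^ 2 ≤ Real.log X := by
      rw [← Real.log_exp ((b / (b - 1)) ^ 2)]
      exact Real.log_le_log (Real.exp_pos _) e2
    have e4 : b * Real.log M ≤ Real.log X := by
      rw [← Real.log_rpow hM0]
      exact Real.log_le_log (by positivity) hX1
    have hb0 : 0 < b - 1 := by linarith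
    have e5 : b / (b - 1) ≤ Real.sqrt (Real.log X) := Real.le_sqrt_of_sq_le e3
    have e6 : Real.sqrt (Real.log X) * Real.sqrt (Real.log X) = Real.log X :=
      Real.mul_self_sqrt ((sq_nonneg _).trans e3)
    have e7 : Real.sqrt (Real.log X) * b ≤ (b - 1) * Real.log X := by
      rw [div_le_iff₀ hb0] at e5
      have h0 : 0 ≤ Real.sqrt (Real.log X) := Real.sqrt_nonneg _
      nlinarith
    have e8 : Real.log M ≤ Real.log X - Real.sqrt (Real.log X) := by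
      have hbp : 0 < b := by linarith
      have : b * Real.log M ≤ b * (Real.log X - Real.sqrt (Real.log X)) := by linarith
      exact le_of_mul_le_mul_left this hbp
    calc (M : ℝ) = Real.exp (Real.log M) := (Real.exp_log hM0).symm
      _ ≤ Real.exp (Real.log X + -Real.sqrt (Real.log X)) := Real.exp_le_exp.2 (by linarith)
      _ = X * Real.exp (-(Real.log X) ^ (1 / 2 : ℝ)) := by
        rw [Real.exp_add, Real.exp_log hX0, Real.sqrt_eq_rpow])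
  by_contra hcon
  push Not at hcon
  set t : ℝ := (N : ℝ) / (M : ℝ) ^ (1 + η) with ht
  have h3 := roots (N := N) (Y := Y) (D : Set ℤ) (t := t) (by positivity)
  have h4 : Lg N (D : Set ℤ) t = ∅ := by
    ext x
    simp only [Set.mem_empty_iff_false, iff_false]
    rintro ⟨_, h⟩
    exact absurd h (not_le.2 (hcon x))
  rw [h4, Set.ncard_empty] at h3
  have h5 : (((Sv N).filter (fun x => (Y : ℤ) ≤ |x| ∧ Al N D Y x)).card : ℝ) ≤ ((0 : ℕ) : ℝ) + (4 * Y + 1) * t := by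
    unfold Sv
    exact h3
  have h6 : (4 * (Y : ℝ) + 1) * t ≤ 9 * (M : ℝ) ^ b * t := by
    apply mul_le_mul_of_nonneg_right _ (by positivity)
    have : 1 ≤ (M : ℝ) ^ b := Real.one_le_rpow hMR (by linarith)
    linarith
  have h7 : (M : ℝ) ^ (1 + η) = (M : ℝ) ^ b * (M : ℝ) ^ (η / 2) := by
    rw [← Real.rpow_add hM0]; congr 1; rw [hb]; ring
  have h8 : (M : ℝ) ^ b * t = N / (M : ℝ) ^ (η / 2) := by
    rw [ht, h7]
    have : (M : ℝ) ^ b ≠ 0 := by positivity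
    field_simp
  have h9 : (N : ℝ) / (M : ℝ) ^ (η / 2) ≤ N / 19 := by
    apply div_le_div_of_nonneg_left (by linarith) (by norm_num) d2
  have h10 : (2 * κ - 1 / 6) * (N : ℝ) ≤ 9 * (N / 19) := by
    have : 9 * (M : ℝ) ^ b * t = 9 * ((M : ℝ) ^ b * t) := by ring
    rw [this, h8] at h6
    push_cast at h5
    linarith
  nlinarith

end Pool.Agent.H623.RB
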