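import Pool.Agent.H623.RB.H
import Pool.Agent.H623.DG.I

/-! Robustness, part I: the link with the cycles. -/

set_option autoImplicit false

namespace Pool.Agent.H623.RB

open Finset Filter Topology
open Pool.Agent.H623.TG
open Pool.Agent.W41

open scoped Classical in
theorem side_ge {s : ℤ} (hs : s = 1 ∨ s = -1) (P : ℤ → Prop) (N : ℕ) :
    cF s {x | P x} N ≤ ((Sv N).filter (fun x => 0 < s * x ∧ P x)).card := by
  have h1 : cF s {x | P x} N = (((Icc 1 N).filter (fun m : ℕ => s * (m : ℤ) ∈ {x | P x})).image (fun m : ℕ => s * (m : ℤ))).card := by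
    rw [card_image_of_injOn]
    · unfold cF
      congr!
    · intro a _ b _ h
      rcases hs with rfl | rfl
      · simpa using h
      · simpa using h
  rw [h1]
  apply card_le_card
  intro x hx
  rw [mem_image] at hx
  obtain ⟨m, hm, rfl⟩ := hx
  rw [mem_filter, mem_Icc] at hm
  rw [mem_filter]
  refine ⟨abs_Icc.2 ?_, ?_, hm.2⟩
  · rcases hs with rfl | rfl
    · rw [one_mul, abs_of_nonneg (by omega)]; omega
    · rw [neg_one_mul, abs_neg, abs_of_nonneg (by omega)]; omega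
  · rw [s_mul hs]; omega

open scoped Classical in
theorem rch_side {s : ℤ} (hs : s = 1 ∨ s = -1) {κ : ℝ} (hκ : Tendsto kap atTop (𝓝 κ)) {ε : ℝ} (hε : 0 < ε) :
    ∃ Y0 : ℕ, ∀ Y : ℕ, Y0 ≤ Y → ∃ N0 : ℕ,
    ∀ N : ℕ, N0 ≤ N → (κ - ε) * N ≤ (((Sv N).filter (fun x => 0 < s * x ∧ Rch N Y x)).card : ℝ) := by
  obtain ⟨Y1, _, H1⟩ := main_count hs hκ hε
  obtain ⟨Y0, hY0⟩ := exists_nat_ge Y1
  refine ⟨Y0, fun Y hY => ?_⟩
  obtain ⟨N1, h1⟩ := H1 Y (hY0.trans (by exact_mod_cast hY))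
  refine ⟨N1, fun N hN => ?_⟩
  have a1 := h1 N hN Set.univ (inv_Td fun x => by simp) 1 (univ_HD hs)
  rw [cL_eq hs, Set.univ_inter] at a1
  have h4 : (cF s {x | Rch N Y x} N : ℝ) ≤ (((Sv N).filter (fun x => 0 < s * x ∧ Rch N Y x)).card : ℝ) := by
    exact_mod_cast side_ge hs _ N
  rw [abs_le] at a1
  linarith [a1.1]

open scoped Classical in
theorem alive_side {N Y : ℕ} {D : Set ℤ} {Q : ℤ → Prop} [DecidablePred Q] {a b c : ℝ}
    (h1 : a ≤ (((Sv N).filter (fun x => Q x ∧ Rch N Y x)).card : ℝ))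
    (h2 : (((Sv N).filter (fun x => ¬ Reg Y x)).card : ℝ) ≤ b)
    (h3 : (((Sv N).filter (fun x => (Rch N Y x ∧ Reg Y x) ∧ ¬ Al N D Y x)).card : ℝ) < c) :
    a - b - c ≤ (((Sv N).filter (fun x => Q x ∧ Al N D Y x)).card : ℝ) := by
  have hsub : (Sv N).filter (fun x => Q x ∧ Rch N Y x) ⊆ ((Sv N).filter (fun x => Q x ∧ Al N D Y x) ∪
      (Sv N).filter (fun x => ¬ Reg Y x)) ∪ (Sv N).filter (fun x => (Rch N Y x ∧ Reg Y x) ∧ ¬ Al N D Y x) := by
    intro x hx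
    rw [mem_filter] at hx
    rw [mem_union, mem_union, mem_filter, mem_filter, mem_filter]
    by_cases hr : Reg Y x
    · by_cases ha : Al N D Y x
      · exact Or.inl (Or.inl ⟨hx.1, hx.2.1, ha⟩)
      · exact Or.inr ⟨hx.1, ⟨hx.2.2, hr⟩, ha⟩
    · exact Or.inl (Or.inr ⟨hx.1, hr⟩)
  have h4 := (card_le_card hsub).trans ((card_union_le _ _).trans (Nat.add_le_add_right (card_union_le _ _) _))
  have h5 : (((Sv N).filter (fun x => Q x ∧ Rch N Y x)).card : ℝ) ≤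
      ((Sv N).filter (fun x => Q x ∧ Al N D Y x)).card + ((Sv N).filter (fun x => ¬ Reg Y x)).card +
      ((Sv N).filter (fun x => (Rch N Y x ∧ Reg Y x) ∧ ¬ Al N D Y x)).card := by exact_mod_cast h4
  linarith

/-- the capped function -/
def cap (p : ℕ → ℝ) (M : ℕ) : ℕ → ℝ := fun n => p (max n M)

theorem cap_small {p : ℕ → ℝ} (hp : Antitone p) (h0 : ∀ n, 0 ≤ p n) (hs : Summable fun k : ℕ => p (2 ^ k)) {η : ℝ}
    (hη : 0 < η) : ∃ M0 : ℕ, ∀ M, M0 ≤ M → ∀ m, Ps (cap p M) m ≤ η := by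
  obtain ⟨l0, hl0⟩ := tail_small hs h0 (show 0 < η / 2 by positivity)
  set k1 := l0 / 2 with hk1
  obtain ⟨j, hj⟩ := (Metric.tendsto_atTop.1 hs.tendsto_atTop_zero (η / (2 * (k1 + 1))) (by positivity))
  refine ⟨2 ^ j, fun M hM m => ?_⟩
  have h1 : p M ≤ η / (2 * (k1 + 1)) := by
    have h2 := hj j le_rfl
    rw [Real.dist_eq, sub_zero, abs_of_nonneg (h0 _)] at h2
    exact (hp hM).trans h2.le
  have h2 : ∀ m, Ps (cap p M) m ≤ k1 * p M + (Ps p (max m k1) - Ps p k1) := by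
    intro m
    have h3 : Ps (cap p M) m ≤ Ps (cap p M) (max m k1) := Ps_mono (fun n => h0 _) (le_max_left _ _)
    have h4 : Ps (cap p M) (max m k1) = Ps (cap p M) k1 + ∑ k ∈ Ico k1 (max m k1), cap p M (2 ^ k) := by
      unfold Ps
      rw [sum_range_add_sum_Ico _ (le_max_right _ _)]
    have h5 : Ps p (max m k1) = Ps p k1 + ∑ k ∈ Ico k1 (max m k1), p (2 ^ k) := by
      unfold Ps
      rw [sum_range_add_sum_Ico _ (le_max_right _ _)]
    have h6 : Ps (cap p M) k1 ≤ k1 * p M := by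
      have h7 : Ps (cap p M) k1 ≤ ∑ _k ∈ range k1, p M := sum_le_sum fun k _ => hp (le_max_right _ _)
      rwa [sum_const, card_range, nsmul_eq_mul] at h7
    have h7 : ∑ k ∈ Ico k1 (max m k1), cap p M (2 ^ k) ≤ ∑ k ∈ Ico k1 (max m k1), p (2 ^ k) :=
      sum_le_sum fun k _ => hp (le_max_left _ _)
    linarith
  have h3 := h2 m
  have h4 := hl0 l0 le_rfl (max m k1)
  have h5 : k1 * p M ≤ η / 2 := by
    have hk0 : (0 : ℝ) ≤ k1 := Nat.cast_nonneg _
    calc k1 * p M ≤ k1 * (η / (2 * (k1 + 1))) := mul_le_mul_of_nonneg_left h1 hk0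
      _ ≤ (k1 + 1) * (η / (2 * (k1 + 1))) := mul_le_mul_of_nonneg_right (by linarith) (by positivity)
      _ = η / 2 := by field_simp
  linarith

open scoped Classical in
/-- if the classes of the elements of `F` cover a side, their components keep the mass of that side -/
theorem link {s : ℤ} (hs : s = 1 ∨ s = -1) {κ : ℝ} (hκ : Tendsto kap atTop (𝓝 κ)) {p : ℕ → ℝ} (hp : Antitone p)
    (h0 : ∀ n, 0 ≤ p n) (h1 : ∀ n, p n ≤ 1) (hsum : Summable (fun n : ℕ => p n / n)) (F : Finset ℤ)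
    (hF : ∀ x : ℤ, 0 < s * x → ∃ c ∈ F, x ∈ Cls c) {ε : ℝ} (hε : 0 < ε) : ∃ M0 : ℕ, ∀ M : ℕ, M0 ≤ M →
    ∀ᶠ N : ℕ in atTop, Pr (Sv N) (fun v => p v.natAbs) (fun D => ¬ ((κ - ε) * N ≤
      (((Sv N).filter (fun x => 0 < s * x ∧ ∃ c ∈ F, x ∈ CompW (V N (Del M D)) c)).card : ℝ))) ≤ ε := by
  obtain ⟨Ya, Ha⟩ := rch_side hs hκ (show 0 < ε / 4 by positivity)
  obtain ⟨Yb, Hb⟩ := few_irr (show 0 < ε / 4 by positivity)
  have hsum' := (summable_pow hp h0).2 hsum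
  obtain ⟨M1, hM1⟩ := cap_small hp h0 hsum' (show 0 < ε ^ 2 / 1200 by positivity)
  set Y := max (max Ya Yb) (2 ^ 120) with hY
  obtain ⟨g1, g2, g3⟩ := log_bounds (le_max_right (max Ya Yb) (2 ^ 120))
  rw [← hY] at g1 g2 g3
  obtain ⟨Na, ha⟩ := Ha Y ((le_max_left _ _).trans (le_max_left _ _))
  obtain ⟨Nb, hb⟩ := Hb Y ((le_max_right _ _).trans (le_max_left _ _))
  -- the paths from the small integers
  have hpath : ∀ z : ℤ, ∃ n : ℕ, 0 < s * z → ∃ c ∈ F, ∀ N ≥ n, Mt N z c := by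
    intro z
    by_cases hz : 0 < s * z
    · obtain ⟨c, hc, hzc⟩ := hF z hz
      obtain ⟨n, hn⟩ := Mt_large (Cls_symm hzc)
      exact ⟨n, fun _ => ⟨c, hc, hn⟩⟩
    · exact ⟨0, fun h => absurd h hz⟩
  choose n hn using hpath
  set W := max ((Icc (-(Y : ℤ)) Y).sup n) Y with hW
  refine ⟨max M1 (W + 1), fun M hM => ?_⟩
  have m1 : M1 ≤ M := (le_max_left _ _).trans hM
  have m2 : W + 1 ≤ M := (le_max_right _ _).trans hM
  filter_upwards [eventually_ge_atTop (max (max Na Nb) (max W 1))] with N hN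
  have c1 : Na ≤ N := (le_max_left _ _).trans ((le_max_left _ _).trans hN)
  have c2 : Nb ≤ N := (le_max_right _ _).trans ((le_max_left _ _).trans hN)
  have c3 : W ≤ N := (le_max_left _ _).trans ((le_max_right _ _).trans hN)
  have c4 : 1 ≤ N := (le_max_right _ _).trans ((le_max_right _ _).trans hN)
  have hNR : (1 : ℝ) ≤ N := by exact_mod_cast c4
  have hq0 : ∀ v : ℤ, 0 ≤ p v.natAbs := fun v => h0 _
  have hq1 : ∀ v : ℤ, p v.natAbs ≤ 1 := fun v => h1 _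
  have hcap : Antitone (cap p M) := fun a b hab => hp (max_le_max_right M hab)
  have hcap0 : ∀ n, 0 ≤ cap p M n := fun n => h0 _
  have hbad := surv h0 h1 hcap hcap0 (M := M) (fun n hnM => by unfold cap; rw [max_eq_left hnM]) g1 g2 g3
    (η := ε ^ 2 / 1200) (fun m => by
      have h2 := hM1 M m1 m
      have h3 : 0 ≤ Ps (cap p M) (Nat.log 2 Y / 2) := sum_nonneg fun _ _ => hcap0 _
      linarith) N (show 0 < ε / 4 * N by positivity)
  have hbad2 : (2 * N + 1) * (100 * (ε ^ 2 / 1200)) / (ε / 4 * N) ≤ ε := by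
    rw [div_le_iff₀ (by positivity)]
    nlinarith [sq_nonneg ε]
  refine le_trans (Pr_mono hq0 hq1 ?_) (hbad.trans hbad2)
  intro D _ hD
  by_contra hcon
  rw [not_le] at hcon
  apply hD
  have h2 := alive_side (Q := fun x => 0 < s * x) (ha N c1) (hb N c2) hcon
  have hsub : (Sv N).filter (fun x => 0 < s * x ∧ Al N (Del M D) Y x) ⊆
      (Sv N).filter (fun x => 0 < s * x ∧ ∃ c ∈ F, x ∈ CompW (V N (Del M D)) c) := by
    intro x hx
    rw [mem_filter] at hx ⊢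
    obtain ⟨hx1, hx2, i, f1, f2⟩ := hx
    refine ⟨hx1, hx2, ?_⟩
    have hz := C_iter_sign hs hx2 i
    obtain ⟨c, hc, hcm⟩ := hn _ hz
    refine ⟨c, hc, ?_⟩
    have hzW : n (C^[i] x) ≤ W := by
      refine le_trans ?_ (le_max_left _ _)
      apply Finset.le_sup (f := n)
      rw [abs_Icc]
      exact f1.le
    obtain ⟨a, b, e1, e2, e3⟩ := hcm W hzW
    have hin : ∀ u : ℤ, |u| ≤ W → u ∈ V N (Del M D) := by
      intro u hu
      refine ⟨hu.trans (by exact_mod_cast c3), ?_⟩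
      rintro ⟨_, h3⟩
      have : ((W + 1 : ℕ) : ℤ) ≤ (M : ℤ) := by exact_mod_cast m2
      push_cast at this
      omega
    have hm1 : MtW (V N (Del M D)) (C^[i] x) c :=
      ⟨a, b, e1, fun a' ha' => hin _ (e2 a' ha'), fun b' hb' => hin _ (e3 b' hb')⟩
    have hm2 : MtW (V N (Del M D)) x (C^[i] x) := by
      refine ⟨i, 0, rfl, fun a' ha' => ?_, fun b' hb' => ?_⟩
      · rcases Nat.eq_or_lt_of_le ha' with h | h
        · rw [h]
          apply hin
          have : (Y : ℤ) ≤ W := by exact_mod_cast le_max_right _ _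
          omega
        · exact f2 a' h
      · rw [Nat.le_zero.1 hb']
        apply hin
        have : (Y : ℤ) ≤ W := by exact_mod_cast le_max_right _ _
        show |C^[i] x| ≤ W
        omega
    exact mem_CompW.2 (MtW_symm (MtW_trans hm2 hm1))
  have h3 : (((Sv N).filter (fun x => 0 < s * x ∧ Al N (Del M D) Y x)).card : ℝ) ≤
      (((Sv N).filter (fun x => 0 < s * x ∧ ∃ c ∈ F, x ∈ CompW (V N (Del M D)) c)).card : ℝ) := by
    exact_mod_cast card_le_card hsub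
  linarith

/-- a lower bound for the mass gives a lower bound for the densities -/
theorem back {κ : ℝ} (hκ : Tendsto kap atTop (𝓝 κ)) {δ : ℤ → ℝ}
    (hδ : ∀ x : ℤ, x ≠ 0 → 0 < δ x ∧ Pool.Agent.H499R2.ND.HD x.sign (Cls x) (δ x) ∧ HasD x.sign (Cls x) (δ x))
    {p : ℕ → ℝ}
    (F : Finset ℤ) (hF : ∀ c ∈ F, c ≠ 0) {a : ℝ}
    (H : ∀ ε : ℝ, 0 < ε → ∃ M : ℕ, ∀ᶠ N : ℕ in atTop, 1 - ε ≤ Pr (Sv N) (fun v => p v.natAbs) (fun D => (a - ε) * N ≤
      ({x : ℤ | ∃ c ∈ F, x ∈ CompW (V N (Del M D)) c}.ncard : ℝ))) : a ≤ κ * ∑ c ∈ F, δ c := by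
  classical
  apply le_of_forall_pos_le_add
  intro ε hε
  obtain ⟨M, hM⟩ := H (min (ε / 2) (1 / 2)) (by positivity)
  have hlim : Tendsto (fun N : ℕ => (∑ c ∈ F, ((Comp N c).ncard : ℝ)) / N) atTop (𝓝 (κ * ∑ c ∈ F, δ c)) := by
    rw [mul_sum]
    have : Tendsto (fun N : ℕ => ∑ c ∈ F, ((Comp N c).ncard : ℝ) / N) atTop (𝓝 (∑ c ∈ F, κ * δ c)) :=
      tendsto_finsetSum F fun c hc => size' hκ hδ c (hF c hc)
    refine this.congr fun N => ?_
    rw [sum_div]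
  obtain ⟨N, h2, h3, h4⟩ := (hM.and ((hlim.eventually (gt_mem_nhds (show κ * ∑ c ∈ F, δ c < κ * ∑ c ∈ F, δ c + ε / 2 by linarith))).and
    (eventually_ge_atTop 1))).exists
  have hNR : (0 : ℝ) < N := by exact_mod_cast h4
  have hpos : 0 < Pr (Sv N) (fun v => p v.natAbs) (fun D => (a - min (ε / 2) (1 / 2)) * N ≤
      ({x : ℤ | ∃ c ∈ F, x ∈ CompW (V N (Del M D)) c}.ncard : ℝ)) := by
    have := min_le_right (ε / 2) (1 / 2)
    linarith
  obtain ⟨D, _, hD⟩ := Pr_exists hpos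
  have h5 : {x : ℤ | ∃ c ∈ F, x ∈ CompW (V N (Del M D)) c}.ncard ≤ ∑ c ∈ F, (Comp N c).ncard := by
    have h6 : {x : ℤ | ∃ c ∈ F, x ∈ CompW (V N (Del M D)) c} ⊆ (F.biUnion (fun c => (Comp_fin N c).toFinset) : Finset ℤ) := by
      rintro x ⟨c, hc, hx⟩
      rw [mem_coe, mem_biUnion]
      exact ⟨c, hc, by rw [Set.Finite.mem_toFinset]; exact CompW_sub c hx⟩
    refine (Set.ncard_le_ncard h6 (Finset.finite_toSet _)).trans ?_
    rw [Set.ncard_coe_finset]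
    refine card_biUnion_le.trans (le_of_eq ?_)
    apply sum_congr rfl
    intro c _
    rw [← Set.ncard_eq_toFinset_card _ (Comp_fin N c)]
  have h6 : ({x : ℤ | ∃ c ∈ F, x ∈ CompW (V N (Del M D)) c}.ncard : ℝ) ≤ ∑ c ∈ F, ((Comp N c).ncard : ℝ) := by
    exact_mod_cast h5
  rw [div_lt_iff₀ hNR] at h3
  have h7 : (a - min (ε / 2) (1 / 2)) * N < (κ * ∑ c ∈ F, δ c + ε / 2) * N := lt_of_le_of_lt (hD.trans h6) h3
  have h8 := lt_of_mul_lt_mul_right h7 hNR.le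
  have := min_le_left (ε / 2) (1 / 2)
  linarith

end Pool.Agent.H623.RB
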